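import Pool.Agent.Lib.MP_629a14_nt.En.Defs
import Pool.Agent.Lib.MP_629a14_nt.Rob.M3Third
import Pool.Agent.Lib.MP_629a14_nt.Rob.SigLow

/-! Comparison of the local density with the singular series. -/

set_option autoImplicit false

namespace Pool.Agent.Lib.MP_629a14_nt.En

open Finset Pool.Agent.Lib.MP_629a14_nt Pool.Agent.Lib.MP_629a14_nt.Rob

theorem tw_pos : 0 < tw := C2_pos

private noncomputable def SingT.f (p : ℕ) : ℝ :=
  if p.Prime ∧ 2 < p then 1 - 1 / ((p : ℝ) - 1) ^ 2 else 1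

private theorem SingT.small {p : ℕ} (hp : 2 < p) : 1 / ((p : ℝ) - 1) ^ 2 ≤ 1 / 4 := by
  have h3 : (3 : ℝ) ≤ p := by exact_mod_cast hp
  refine one_div_le_one_div_of_le (by norm_num) ?_
  nlinarith

private theorem SingT.pos (p : ℕ) : 0 < SingT.f p := by
  unfold SingT.f
  split_ifs with h
  · have := SingT.small h.2
    linarith
  · exact one_pos

private theorem SingT.summable : Summable fun p => Real.log (SingT.f p) := by
  have hs : Summable fun n : ℕ => 8 * (1 / (n : ℝ) ^ 2) :=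
    (Real.summable_one_div_nat_pow.mpr (by norm_num)).mul_left 8
  refine Summable.of_norm_bounded hs fun p => ?_
  unfold SingT.f
  split_ifs with h
  · have h3 : (3 : ℝ) ≤ p := by exact_mod_cast h.2
    have hsm := SingT.small h.2
    set x : ℝ := 1 / ((p : ℝ) - 1) ^ 2 with hx
    have hx0 : 0 ≤ x := by positivity
    have h1 : 0 < 1 - x := by linarith
    have hneg : Real.log (1 - x) ≤ 0 := Real.log_nonpos h1.le (by linarith)
    rw [Real.norm_eq_abs, abs_of_nonpos hneg]
    have h2 : -Real.log (1 - x) ≤ 2 * x := by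
      rw [← Real.log_inv]
      have h4 := Real.log_le_sub_one_of_pos (inv_pos.mpr h1)
      have h5 : (1 - x)⁻¹ - 1 ≤ 2 * x := by
        rw [sub_le_iff_le_add, inv_le_iff_one_le_mul₀ h1]
        nlinarith
      linarith
    have h6 : x ≤ 4 * (1 / (p : ℝ) ^ 2) := by
      rw [hx, mul_one_div, div_le_div_iff₀ (by nlinarith) (by positivity)]
      nlinarith
    linarith
  · rw [Real.log_one, norm_zero]
    positivity

/-- the truncated twin prime constant -/
private noncomputable def SingT.T (v : ℕ) : ℝ := ∏ p ∈ SigLow.od v, (1 - 1 / ((p : ℝ) - 1) ^ 2)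

private theorem SingT.lim : Filter.Tendsto SingT.T Filter.atTop (nhds tw) := by
  have hm : Multipliable SingT.f := Real.multipliable_of_summable_log SingT.pos SingT.summable
  have h1 := hm.tendsto_prod_tprod_nat
  have h2 : tw = ∏' p, SingT.f p := rfl
  rw [← h2] at h1
  have h3 := (h1.comp (Filter.tendsto_add_atTop_nat 1))
  refine h3.congr fun w => ?_
  simp only [Function.comp]
  unfold SingT.T SigLow.od
  have e1 : (Icc 3 w).filter Nat.Prime =
      (range (w + 1)).filter (fun p => p.Prime ∧ 2 < p) := by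
    ext p
    simp only [mem_filter, mem_Icc, mem_range]
    constructor
    · rintro ⟨⟨h5, h6⟩, hp⟩
      exact ⟨by omega, hp, by omega⟩
    · rintro ⟨h5, hp, h6⟩
      exact ⟨⟨by omega, by omega⟩, hp⟩
  rw [e1, prod_filter]
  rfl

/-- the factors of the singular series -/
private noncomputable def SingT.w (p : ℕ) : ℝ := ((p : ℝ) - 1) / ((p : ℝ) - 2)

private theorem SingT.one_le_w {p : ℕ} (hp : 2 < p) : 1 ≤ SingT.w p := by
  have h3 : (3 : ℝ) ≤ p := by exact_mod_cast hp
  unfold SingT.w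
  rw [one_le_div (by linarith)]
  linarith

private theorem SingT.one_le_prod {S : Finset ℕ} (h : ∀ p ∈ S, 2 < p) :
    1 ≤ ∏ p ∈ S, SingT.w p := by
  rw [← Finset.prod_const_one (s := S)]
  exact Finset.prod_le_prod (fun _ _ => zero_le_one) fun p hp => SingT.one_le_w (h p hp)

theorem sing_ge (n : ℕ) : 2 * tw ≤ sing n := by
  unfold sing
  refine le_mul_of_one_le_right (by have := tw_pos; linarith) ?_
  exact SingT.one_le_prod (S := n.primeFactors.filter (fun p => 2 < p))
    fun p hp => (mem_filter.1 hp).2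

/-- the part of the singular series coming from the primes up to `v` -/
private noncomputable def SingT.A (v n : ℕ) : ℝ :=
  ∏ p ∈ (SigLow.od v).filter (fun p => p ∣ n), SingT.w p

/-- the part of the singular series coming from the primes larger than `v` -/
private noncomputable def SingT.B (v n : ℕ) : ℝ :=
  ∏ p ∈ n.primeFactors.filter (fun p => v < p), SingT.w p

private theorem SingT.sig_eq' (v n : ℕ) (hv : 2 ≤ v) : sig v n = 2 * SingT.T v * SingT.A v n := by
  rw [SigLow.sig_eq v n hv]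
  unfold SigLow.RR SigLow.QQ SingT.T SingT.A
  rw [← prod_filter_mul_prod_filter_not (SigLow.od v) (fun p => p ∣ n)
    (fun p => 1 - 1 / ((p : ℝ) - 1) ^ 2)]
  have h3 : ∀ p ∈ SigLow.od v, (3 : ℝ) ≤ p := by
    intro p hp
    rw [SigLow.od, mem_filter, mem_Icc] at hp
    exact_mod_cast hp.1.1
  have e1 : ∏ p ∈ (SigLow.od v).filter (fun p => ¬ p ∣ n), ((p : ℝ) * ((p : ℝ) - 2) /
      ((p : ℝ) - 1) ^ 2) = ∏ p ∈ (SigLow.od v).filter (fun p => ¬ p ∣ n),
      (1 - 1 / ((p : ℝ) - 1) ^ 2) := by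
    refine prod_congr rfl fun p hp => ?_
    have := h3 p (mem_filter.1 hp).1
    have h1 : (p : ℝ) - 1 ≠ 0 := by linarith
    field_simp
    ring
  have e2 : ∏ p ∈ (SigLow.od v).filter (fun p => p ∣ n), ((p : ℝ) / ((p : ℝ) - 1)) =
      (∏ p ∈ (SigLow.od v).filter (fun p => p ∣ n), (1 - 1 / ((p : ℝ) - 1) ^ 2)) *
      ∏ p ∈ (SigLow.od v).filter (fun p => p ∣ n), SingT.w p := by
    rw [← prod_mul_distrib]
    refine prod_congr rfl fun p hp => ?_
    have := h3 p (mem_filter.1 hp).1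
    have h1 : (p : ℝ) - 1 ≠ 0 := by linarith
    have h2 : (p : ℝ) - 2 ≠ 0 := by linarith
    unfold SingT.w
    field_simp
    ring
  rw [e1, e2]
  ring

private theorem SingT.sing_eq' (v n : ℕ) (hv : 2 ≤ v) (hn : 1 ≤ n) :
    sing n = 2 * tw * (SingT.A v n * SingT.B v n) := by
  unfold sing
  congr 1
  have e : n.primeFactors.filter (fun p => 2 < p) =
      ((SigLow.od v).filter (fun p => p ∣ n)) ∪ (n.primeFactors.filter (fun p => v < p)) := by
    ext p
    simp only [mem_union, mem_filter, SigLow.od, mem_Icc,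
      Nat.mem_primeFactors_of_ne_zero (show n ≠ 0 by omega)]
    constructor
    · rintro ⟨⟨hp, hd⟩, h⟩
      by_cases hpv : v < p
      · exact Or.inr ⟨⟨hp, hd⟩, hpv⟩
      · exact Or.inl ⟨⟨⟨by omega, by omega⟩, hp⟩, hd⟩
    · rintro (⟨⟨⟨h1, h2⟩, hp⟩, hd⟩ | ⟨⟨hp, hd⟩, h⟩)
      · exact ⟨⟨hp, hd⟩, by omega⟩
      · exact ⟨⟨hp, hd⟩, by omega⟩
  have hdis : Disjoint ((SigLow.od v).filter (fun p => p ∣ n))
      (n.primeFactors.filter (fun p => v < p)) := by
    rw [Finset.disjoint_left]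
    intro p hp hp'
    simp only [mem_filter, SigLow.od, mem_Icc] at hp hp'
    omega
  rw [e, prod_union hdis]
  rfl

private theorem SingT.A_ge (v n : ℕ) : 1 ≤ SingT.A v n := by
  refine SingT.one_le_prod fun p hp => ?_
  simp only [mem_filter, SigLow.od, mem_Icc] at hp
  omega

private theorem SingT.B_ge (v n : ℕ) (hv : 2 ≤ v) : 1 ≤ SingT.B v n := by
  refine SingT.one_le_prod fun p hp => ?_
  simp only [mem_filter] at hp
  omega

private theorem SingT.B_le (v n : ℕ) (hv : 3 ≤ v) : SingT.B v n ≤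
    Real.exp (2 * ∑ p ∈ n.primeFactors.filter (fun p => v < p), 1 / (p : ℝ)) := by
  unfold SingT.B
  rw [Finset.mul_sum, Real.exp_sum]
  refine Finset.prod_le_prod (fun p hp => ?_) fun p hp => ?_
  · have h1 : 2 < p := by
      have := (mem_filter.1 hp).2
      omega
    exact zero_le_one.trans (SingT.one_le_w h1)
  · have h1 : 4 ≤ p := by
      have := (mem_filter.1 hp).2
      omega
    have h4 : (4 : ℝ) ≤ p := by exact_mod_cast h1
    have h2 : SingT.w p ≤ 1 + 2 * (1 / (p : ℝ)) := by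
      unfold SingT.w
      have e : (1 : ℝ) + 2 * (1 / p) = (p + 2) / p := by
        field_simp
      rw [e, div_le_div_iff₀ (by linarith) (by linarith)]
      nlinarith
    have h3 := Real.add_one_le_exp (2 * (1 / (p : ℝ)))
    linarith

/-- `sig v n = 2 ∏_{3 ≤ p ≤ v} (1 - 1/(p-1)^2) ∏_{3 ≤ p ≤ v, p ∣ n} (p-1)/(p-2)` for `v ≥ 2`
(`SigLow.ratio_primorial`, `SigLow.sig_eq`), so `sing n / sig v n` is
`[tw / ∏_{3 ≤ p ≤ v} (1 - 1/(p-1)^2)] · ∏_{p ∣ n, p > v} (p-1)/(p-2)`. The first factor tends to `1`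
(the product defining `tw` converges: `Multipliable.tendsto_prod_tprod_nat` as in `del_lim` in
`M3Third.lean`), and for `v ≥ 3` the second lies between `1` and
`exp (∑_{p ∣ n, p > v} 1/(p-2)) ≤ exp (2 ∑_{p ∣ n, p > v} 1/p)` (as `p ≥ 4`). -/
theorem sig_sing (ρ : ℝ) (hρ : 0 < ρ) : ∃ τ : ℝ, 0 < τ ∧ ∃ v₀ : ℕ, ∀ v : ℕ, v₀ ≤ v → ∀ n : ℕ,
    1 ≤ n → ∑ p ∈ n.primeFactors.filter (fun p => v < p), 1 / (p : ℝ) ≤ τ →
    |sig v n - sing n| ≤ ρ * sing n := by
  have htw := tw_pos
  have h1 := Metric.tendsto_nhds.1 SingT.lim (ρ / 2 * tw) (by positivity)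
  obtain ⟨v₁, hv₁⟩ := Filter.eventually_atTop.1 h1
  refine ⟨ρ / 4, by positivity, max v₁ 3, fun v hv n hn hτ => ?_⟩
  have hv1 : v₁ ≤ v := (le_max_left _ _).trans hv
  have hv3 : 3 ≤ v := (le_max_right _ _).trans hv
  have hT := hv₁ v hv1
  rw [Real.dist_eq] at hT
  rw [SingT.sig_eq' v n (by omega), SingT.sing_eq' v n (by omega) hn]
  have hA := SingT.A_ge v n
  have hB := SingT.B_ge v n (by omega)
  have hB2 := SingT.B_le v n hv3
  set A := SingT.A v n with hAdef
  set B := SingT.B v n with hBdef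
  set T := SingT.T v with hTdef
  have hB3 : B ≤ Real.exp (ρ / 2) := hB2.trans (Real.exp_le_exp.2 (by linarith))
  have hB4 : B * (1 - ρ / 2) ≤ 1 := by
    have h2 : 1 - ρ / 2 ≤ Real.exp (-(ρ / 2)) := by
      have := Real.add_one_le_exp (-(ρ / 2))
      linarith
    calc B * (1 - ρ / 2) ≤ B * Real.exp (-(ρ / 2)) :=
          mul_le_mul_of_nonneg_left h2 (by linarith)
      _ ≤ Real.exp (ρ / 2) * Real.exp (-(ρ / 2)) :=
          mul_le_mul_of_nonneg_right hB3 (Real.exp_pos _).le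
      _ = 1 := by rw [← Real.exp_add]; simp
  have hkey : |T - tw * B| ≤ ρ * (tw * B) := by
    have h2 : |T - tw * B| ≤ |T - tw| + tw * (B - 1) := by
      have h3 : T - tw * B = (T - tw) - tw * (B - 1) := by ring
      rw [h3]
      refine (abs_sub _ _).trans ?_
      rw [abs_of_nonneg (mul_nonneg htw.le (by linarith : (0:ℝ) ≤ B - 1))]
    have h4 : tw * (B - 1) ≤ ρ / 2 * (tw * B) := by
      have h5 : B - 1 ≤ ρ / 2 * B := by linarith
      calc tw * (B - 1) ≤ tw * (ρ / 2 * B) := mul_le_mul_of_nonneg_left h5 htw.le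
        _ = _ := by ring
    have h6 : ρ / 2 * tw ≤ ρ / 2 * (tw * B) := by
      have : tw ≤ tw * B := le_mul_of_one_le_right htw.le hB
      exact mul_le_mul_of_nonneg_left this (by positivity)
    linarith
  have hA0 : 0 < A := by linarith
  have e1 : 2 * T * A - 2 * tw * (A * B) = 2 * A * (T - tw * B) := by ring
  rw [e1, abs_mul, abs_of_pos (by positivity : (0:ℝ) < 2 * A)]
  calc 2 * A * |T - tw * B| ≤ 2 * A * (ρ * (tw * B)) :=
        mul_le_mul_of_nonneg_left hkey (by positivity)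
    _ = ρ * (2 * tw * (A * B)) := by ring

end Pool.Agent.Lib.MP_629a14_nt.En
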