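import Pool.Agent.Lib.MP_629a14_nt.Rob.M3Third
import Pool.Agent.Lib.MP_629a14_nt.Rob.SigLow
import Pool.Agent.Lib.MP_629a14_nt.PrimeRecip

/-! Mertens-type bounds: `W / φ(W) ≤ C log v`, and a lower bound for `hq (primorial P) Q`. -/

set_option autoImplicit false

namespace Pool.Agent.Lib.MP_629a14_nt.En

open Finset Pool.Agent.Lib.MP_629a14_nt Pool.Agent.Lib.MP_629a14_nt.Rob
open Pool.Agent.Lib.MP_60b32f_nt (hq sdiv)

private theorem wlog_pf (P : ℕ) : (primorial P).primeFactors = (Icc 1 P).filter Nat.Prime := by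
  ext p
  rw [Nat.mem_primeFactors, mem_filter, mem_Icc]
  constructor
  · rintro ⟨hp, hd, _⟩
    have := (prime_dvd_primorial_iff' hp).1 hd
    exact ⟨⟨hp.one_le, this⟩, hp⟩
  · rintro ⟨⟨_, hle⟩, hp⟩
    exact ⟨hp, (prime_dvd_primorial_iff' hp).2 hle, (primorial_sqf P).ne_zero⟩

private theorem wlog_ratio (v : ℕ) : (primorial v : ℝ) / (primorial v).totient
    = (∏ p ∈ (Icc 1 v).filter Nat.Prime, (1 - 1 / (p : ℝ)))⁻¹ := by
  rw [SigLow.ratio_eq _ (primorial_pos v), wlog_pf, ← prod_inv_distrib]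
  refine prod_congr rfl fun p hp => ?_
  have hpp : p.Prime := (mem_filter.1 hp).2
  have h2 : (2 : ℝ) ≤ p := by exact_mod_cast hpp.two_le
  have h1 : (p : ℝ) ≠ 0 := by linarith
  have h3 : (p : ℝ) - 1 ≠ 0 := by linarith
  rw [one_sub_div h1, inv_div]

/-- `SigLow.ratio_eq` (or `ratio_primorial`) gives `W / φ(W) = ∏_{p ≤ v} p/(p-1)
= 1 / ∏_{p ≤ v} (1 - 1/p)`; `mert_three` says that `log v ∏_{p ≤ v} (1 - 1/p)` has a positive limit;
the finitely many small `v` only change the constant. -/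
theorem wlog : ∃ C : ℝ, 0 < C ∧ ∀ v : ℕ, 2 ≤ v →
    (primorial v : ℝ) / (primorial v).totient ≤ C * Real.log v := by
  have hlim := mert_three
  have hpos : (0 : ℝ) < Real.exp (-Real.eulerMascheroniConstant) := Real.exp_pos _
  have hev := hlim.eventually (lt_mem_nhds (half_lt_self hpos))
  rw [Filter.eventually_atTop] at hev
  obtain ⟨N, hN⟩ := hev
  set e : ℝ := Real.exp (-Real.eulerMascheroniConstant) with he
  have hterm : ∀ v : ℕ, 0 ≤ (primorial v : ℝ) / (primorial v).totient / Real.log v := by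
    intro v
    have : 0 ≤ Real.log v := Real.log_natCast_nonneg v
    positivity
  refine ⟨2 / e + ∑ v ∈ range N, (primorial v : ℝ) / (primorial v).totient / Real.log v,
    add_pos_of_pos_of_nonneg (by positivity) (sum_nonneg fun v _ => hterm v), fun v hv => ?_⟩
  have hv' : (2 : ℝ) ≤ v := by exact_mod_cast hv
  have hlog : 0 < Real.log v := Real.log_pos (by linarith)
  rw [← div_le_iff₀ hlog]
  by_cases hvN : v < N
  · have h1 : (primorial v : ℝ) / (primorial v).totient / Real.log v
        ≤ ∑ v ∈ range N, (primorial v : ℝ) / (primorial v).totient / Real.log v :=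
      single_le_sum (f := fun v : ℕ => (primorial v : ℝ) / (primorial v).totient / Real.log v)
        (fun i _ => hterm i) (mem_range.2 hvN)
    have h2 : 0 < 2 / e := by positivity
    linarith
  · have h1 := hN v (by omega)
    have h2 : 0 ≤ ∑ v ∈ range N, (primorial v : ℝ) / (primorial v).totient / Real.log v :=
      sum_nonneg fun v _ => hterm v
    have h3 : (primorial v : ℝ) / (primorial v).totient / Real.log v ≤ 2 / e := by
      rw [wlog_ratio, ← one_div, div_div]
      set Q : ℝ := ∏ p ∈ (Icc 1 v).filter Nat.Prime, (1 - 1 / (p : ℝ)) with hQ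
      have h4 : e / 2 < Q * Real.log v := by
        rw [mul_comm]
        exact h1
      calc 1 / (Q * Real.log v) ≤ 1 / (e / 2) :=
            one_div_le_one_div_of_le (by positivity) h4.le
        _ = 2 / e := by rw [one_div_div]
    linarith

/-- As `hq_primorial` (`PrimeRecip.lean`), with `sdiv (primorial P) = ∏_{p ≤ P} (1 + 1/p) ≤
∏_{p ≤ P} p/(p-1) = W/φ(W) ≤ C log P` (`wlog`, `sdiv_squarefree`) in place of `sdiv_primorial`. -/
theorem hq_low : ∃ C : ℝ, 0 < C ∧ ∀ P Q : ℕ, 2 ≤ P →
    Real.log (Q + 1) ≤ C * Real.log P * hq (primorial P) Q := by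
  obtain ⟨C, hC, hw⟩ := wlog
  refine ⟨4 * C, by positivity, fun P Q hP => ?_⟩
  have h0 : 0 < primorial P := primorial_pos P
  have h1 := Pool.Agent.Lib.MP_60b32f_nt.claim1 (primorial P) Q h0
  have h2 := Pool.Agent.Lib.MP_60b32f_nt.zsum_le Q
  have h3 := Pool.Agent.Lib.MP_60b32f_nt.sdiv_two_mul_le (primorial P) h0
  have h4 : sdiv (primorial P) ≤ C * Real.log P := by
    refine le_trans ?_ (hw P hP)
    rw [sdiv_squarefree (primorial_sqf P), SigLow.ratio_eq _ h0]
    refine prod_le_prod (fun _ _ => by positivity) fun p hp => ?_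
    have hpp := Nat.prime_of_mem_primeFactors hp
    have hp2 : (2 : ℝ) ≤ p := by exact_mod_cast hpp.two_le
    have e1 : (p : ℝ) / ((p : ℝ) - 1) = 1 + 1 / ((p : ℝ) - 1) := by
      have : (p : ℝ) - 1 ≠ 0 := by linarith
      field_simp
      ring
    rw [e1]
    have : 1 / (p : ℝ) ≤ 1 / ((p : ℝ) - 1) :=
      one_div_le_one_div_of_le (by linarith) (by linarith)
    linarith
  have h5 := Pool.Agent.Lib.MP_60b32f_nt.log_le_hsum Q
  have hh : 0 ≤ hq (primorial P) Q := by
    unfold hq
    positivity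
  have hs : 0 ≤ sdiv (2 * primorial P) := by
    unfold sdiv
    positivity
  have hs' : 0 ≤ sdiv (primorial P) := by
    unfold sdiv
    positivity
  calc Real.log (Q + 1) ≤ Pool.Agent.Lib.MP_60b32f_nt.zsum Q
        * (sdiv (2 * primorial P) * hq (primorial P) Q) := h5.trans h1
    _ ≤ 2 * ((2 * sdiv (primorial P)) * hq (primorial P) Q) := by gcongr
    _ ≤ 2 * ((2 * (C * Real.log P)) * hq (primorial P) Q) := by gcongr
    _ = _ := by ring

end Pool.Agent.Lib.MP_629a14_nt.En
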