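import Pool.Agent.Lib.MP_629a14_nt.Rob.SDefs

/-! Definitions for the theorem on families of small additive energy. -/

set_option autoImplicit false

namespace Pool.Agent.Lib.MP_629a14_nt.En

open Finset Pool.Agent.Lib.MP_629a14_nt Pool.Agent.Lib.MP_629a14_nt.Rob

/-- The number of pairs `(x, y)` of `s`-tuples of indices with equal sums. -/
def energy {k : ℕ} (a : Fin k → ℕ) (s : ℕ) : ℕ :=
  ((univ : Finset ((Fin s → Fin k) × (Fin s → Fin k))).filter
    (fun xy => ∑ j, a (xy.1 j) = ∑ j, a (xy.2 j))).card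

/-- The number of ordered representations as a sum of two primes. -/
def r2 (n : ℕ) : ℕ := ((range (n + 1)).filter (fun p => p.Prime ∧ (n - p).Prime)).card

/-- The twin prime constant. -/
noncomputable def tw : ℝ := ∏' p : ℕ, if p.Prime ∧ 2 < p then 1 - 1 / ((p : ℝ) - 1) ^ 2 else 1

/-- The singular series. -/
noncomputable def sing (n : ℕ) : ℝ :=
  2 * tw * ∏ p ∈ n.primeFactors.filter (fun p => 2 < p), (((p : ℝ) - 1) / ((p : ℝ) - 2))

/-- The value predicted by Hardy and Littlewood. -/
noncomputable def HL (n : ℕ) : ℝ := sing n * (n / (Real.log n) ^ 2)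

/-- The indicator function of the primes with weight `log N`. -/
noncomputable def ff (N m : ℕ) : ℝ := if m.Prime then Real.log N else 0

/-- Difference of the convolutions of `ff` and `nu` with themselves. -/
noncomputable def DD (v N n : ℕ) : ℝ :=
  ∑ m ∈ Ico 1 n, (ff N m * ff N (n - m) - nu v m * nu v (n - m))

/-- The Fourier transform of `ff + nu` (compare `gh`). -/
noncomputable def gp (v N : ℕ) (α : ℝ) : ℂ := (Real.log N : ℂ) * SP N α + SN v N α

/-- `W / φ(W)` for the product `W` of the primes up to `v`. -/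
noncomputable def kap (v : ℕ) : ℝ := (primorial v : ℝ) / (primorial v).totient

/-- The hypothesis: a family of `k` integers in `[1, N]` with `s`-fold energy at most
`K k ^ (2 s) / N`. -/
def Fam (s : ℕ) (K : ℝ) (N k : ℕ) (a : Fin k → ℕ) : Prop :=
  (∀ i, 1 ≤ a i ∧ a i ≤ N) ∧ (N : ℝ) * energy a s ≤ K * (k : ℝ) ^ (2 * s)

end Pool.Agent.Lib.MP_629a14_nt.En
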