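import Pool.Agent.Lib.MP_629a14_nt.En.Defs

/-! Consequences of small energy for the distribution of the family. -/

set_option autoImplicit false

namespace Pool.Agent.Lib.MP_629a14_nt.En

open Finset

/-- Cauchy-Schwarz: `|F| ^ s = ∑_{t ∈ T} ρ(t)` with `ρ(t)` the number of `x : Fin s → Fin k` with values
in `F` and `∑ a (x j) = t`, and `∑_t ρ(t) ^ 2 ≤ energy a s`. -/
theorem sub_card {k : ℕ} (a : Fin k → ℕ) (s : ℕ) (F : Finset (Fin k)) (T : Finset ℕ)
    (hT : ∀ x : Fin s → Fin k, (∀ j, x j ∈ F) → ∑ j, a (x j) ∈ T) :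
    (F.card : ℝ) ^ (2 * s) ≤ T.card * energy a s := by
  classical
  set P : Finset (Fin s → Fin k) := Fintype.piFinset (fun _ : Fin s => F) with hP
  set σ : (Fin s → Fin k) → ℕ := fun x => ∑ j, a (x j) with hσ
  have hPcard : P.card = F.card ^ s := by
    rw [hP, Fintype.card_piFinset]
    simp
  have hmap : ∀ x ∈ P, σ x ∈ T := by
    intro x hx
    refine hT x (fun j => ?_)
    rw [hP, Fintype.mem_piFinset] at hx
    exact hx j
  have h1 : P.card = ∑ t ∈ T, (P.filter (fun x => σ x = t)).card :=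
    Finset.card_eq_sum_card_fiberwise hmap
  set Q : Finset ((Fin s → Fin k) × (Fin s → Fin k)) :=
    (P ×ˢ P).filter (fun xy => σ xy.1 = σ xy.2) with hQ
  have h2 : Q.card = ∑ t ∈ T, (Q.filter (fun xy => σ xy.1 = t)).card := by
    refine Finset.card_eq_sum_card_fiberwise (fun xy hxy => ?_)
    have hxy' : xy ∈ Q := hxy
    rw [hQ, Finset.mem_filter, Finset.mem_product] at hxy'
    exact hmap _ hxy'.1.1
  have h3 : ∀ t ∈ T, (Q.filter (fun xy => σ xy.1 = t)).card =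
      (P.filter (fun x => σ x = t)).card ^ 2 := by
    intro t _
    rw [sq, ← Finset.card_product]
    congr 1
    ext xy
    simp only [hQ, Finset.mem_filter, Finset.mem_product]
    constructor
    · rintro ⟨⟨⟨ha, hb⟩, hc⟩, hd⟩
      exact ⟨⟨ha, hd⟩, hb, by rw [← hc, hd]⟩
    · rintro ⟨⟨ha, hb⟩, hc, hd⟩
      exact ⟨⟨⟨ha, hc⟩, by rw [hb, hd]⟩, hb⟩
  have h4 : Q.card ≤ energy a s := by
    unfold energy
    refine Finset.card_le_card (fun xy hxy => ?_)
    rw [hQ, Finset.mem_filter] at hxy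
    rw [Finset.mem_filter]
    exact ⟨Finset.mem_univ _, hxy.2⟩
  have h5 : P.card ^ 2 ≤ T.card * Q.card := by
    rw [h1, h2, Finset.sum_congr rfl h3]
    exact sq_sum_le_card_mul_sum_sq
  have h6 : F.card ^ (2 * s) ≤ T.card * energy a s := by
    calc F.card ^ (2 * s) = P.card ^ 2 := by rw [hPcard, ← pow_mul, mul_comm]
      _ ≤ T.card * Q.card := h5
      _ ≤ T.card * energy a s := Nat.mul_le_mul_left _ h4
  exact_mod_cast h6

private lemma root_le (s : ℕ) (hs : 1 ≤ s) (c x y : ℝ) (hc : 0 ≤ c) (hx : 0 ≤ x) (hy : 0 ≤ y)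
    (h : x ^ (2 * s) ≤ c * y ^ (2 * s)) : x ≤ c ^ (1 / (2 * s : ℝ)) * y := by
  have hs1 : (1:ℝ) ≤ s := by exact_mod_cast hs
  have hn : 2 * s ≠ 0 := by omega
  have e : c = (c ^ (1 / (2 * s : ℝ))) ^ (2 * s) := by
    rw [← Real.rpow_natCast, ← Real.rpow_mul hc]
    push_cast
    rw [one_div_mul_cancel (by positivity), Real.rpow_one]
  rw [e, ← mul_pow] at h
  exact le_of_pow_le_pow_left₀ hn (mul_nonneg (Real.rpow_nonneg hc _) hy) h

/-- `sub_card` with `T` the multiples of `d` up to `s N`: `|T| ≤ s N / d + 1 ≤ (s + 1) N / d`. -/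
theorem div_card (s : ℕ) (hs : 1 ≤ s) (K : ℝ) (hK : 0 < K) (N k : ℕ) (a : Fin k → ℕ)
    (ha : Fam s K N k a) (d : ℕ) (hd : 1 ≤ d) (hdN : d ≤ N) :
    (((univ : Finset (Fin k)).filter (fun i => d ∣ a i)).card : ℝ) ≤
      (((s : ℝ) + 1) * K / d) ^ (1 / (2 * s : ℝ)) * k := by
  have hd0 : (0:ℝ) < d := by exact_mod_cast hd
  have hN0 : (0:ℝ) < N := by exact_mod_cast (lt_of_lt_of_le hd hdN)
  refine root_le s hs _ _ _ (by positivity) (by positivity) (by positivity) ?_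
  set F : Finset (Fin k) := (univ : Finset (Fin k)).filter (fun i => d ∣ a i) with hF
  set T : Finset ℕ := (range (s * N / d + 1)).image (fun m => m * d) with hT
  have hsub := sub_card a s F T (by
    intro x hx
    have h1 : d ∣ ∑ j, a (x j) := by
      refine Finset.dvd_sum (fun j _ => ?_)
      have := hx j
      rw [hF, Finset.mem_filter] at this
      exact this.2
    have h2 : ∑ j, a (x j) ≤ s * N := by
      calc ∑ j, a (x j) ≤ ∑ _j : Fin s, N := Finset.sum_le_sum (fun j _ => (ha.1 (x j)).2)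
        _ = s * N := by simp
    obtain ⟨m, hm⟩ := h1
    rw [hT, Finset.mem_image]
    refine ⟨m, ?_, by rw [hm, mul_comm]⟩
    rw [Finset.mem_range, Nat.lt_succ_iff, Nat.le_div_iff_mul_le (by omega)]
    rw [hm, mul_comm] at h2
    exact h2)
  have hTc : (T.card : ℝ) ≤ ((s:ℝ) + 1) * N / d := by
    have h1 : T.card ≤ s * N / d + 1 := by
      rw [hT]
      exact Finset.card_image_le.trans (by rw [Finset.card_range])
    have h2 : ((s * N / d : ℕ) : ℝ) ≤ (s * N : ℝ) / d := by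
      have := @Nat.cast_div_le ℝ _ _ _ (s * N) d
      push_cast at this ⊢
      exact this
    have h3 : (1:ℝ) ≤ N / d := by
      rw [le_div_iff₀ hd0, one_mul]
      exact_mod_cast hdN
    calc (T.card : ℝ) ≤ ((s * N / d : ℕ) : ℝ) + 1 := by exact_mod_cast h1
      _ ≤ (s * N : ℝ) / d + N / d := add_le_add h2 h3
      _ = ((s:ℝ) + 1) * N / d := by ring
  have hE : (energy a s : ℝ) ≤ K * (k:ℝ) ^ (2 * s) / N := by
    rw [le_div_iff₀ hN0, mul_comm]
    exact ha.2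
  calc (F.card : ℝ) ^ (2 * s) ≤ T.card * energy a s := hsub
    _ ≤ (((s:ℝ) + 1) * N / d) * (K * (k:ℝ) ^ (2 * s) / N) :=
        mul_le_mul hTc hE (Nat.cast_nonneg _) (by positivity)
    _ = ((s:ℝ) + 1) * K / d * (k:ℝ) ^ (2 * s) := by field_simp

/-- `sub_card` with `T = range (s y + 1)`, `y = ⌊δ N⌋`; for `N ≥ 1 / δ` one has
`|T| ≤ (s + 1) δ N`, so the number is at most `((s + 1) δ K) ^ (1 / 2s) k`. -/
theorem small_card (s : ℕ) (hs : 1 ≤ s) (K ε : ℝ) (hK : 0 < K) (hε : 0 < ε) :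
    ∃ δ : ℝ, 0 < δ ∧ δ ≤ 1 ∧ ∃ N₀ : ℕ, ∀ N : ℕ, N₀ ≤ N → ∀ (k : ℕ) (a : Fin k → ℕ),
      Fam s K N k a →
      (((univ : Finset (Fin k)).filter (fun i => (a i : ℝ) < δ * N)).card : ℝ) ≤ ε * k := by
  have hs1 : (1:ℝ) ≤ s := by exact_mod_cast hs
  have hc : (0:ℝ) < ((s:ℝ) + 1) * K := by positivity
  have hδpos : 0 < min 1 (ε ^ (2 * s) / (((s:ℝ) + 1) * K)) :=
    lt_min one_pos (by positivity)
  refine ⟨min 1 (ε ^ (2 * s) / (((s:ℝ) + 1) * K)), hδpos, min_le_left _ _,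
    ⌈1 / min 1 (ε ^ (2 * s) / (((s:ℝ) + 1) * K))⌉₊, ?_⟩
  have hδ2 : min 1 (ε ^ (2 * s) / (((s:ℝ) + 1) * K)) * (((s:ℝ) + 1) * K) ≤ ε ^ (2 * s) := by
    rw [← le_div_iff₀ hc]
    exact min_le_right _ _
  generalize min 1 (ε ^ (2 * s) / (((s:ℝ) + 1) * K)) = δ at hδpos hδ2
  intro N hN k a ha
  have hN1 : 1 / δ ≤ N := (Nat.le_ceil _).trans (by exact_mod_cast hN)
  have hN0 : (0:ℝ) < N := lt_of_lt_of_le (by positivity) hN1
  have hδN : 1 ≤ δ * N := by
    rw [div_le_iff₀ hδpos] at hN1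
    linarith
  set F : Finset (Fin k) := (univ : Finset (Fin k)).filter (fun i => (a i : ℝ) < δ * N) with hF
  have hsub := sub_card a s F (range (s * ⌊δ * N⌋₊ + 1)) (by
    intro x hx
    rw [Finset.mem_range, Nat.lt_succ_iff]
    calc ∑ j, a (x j) ≤ ∑ _j : Fin s, ⌊δ * N⌋₊ := by
          refine Finset.sum_le_sum (fun j _ => ?_)
          have := hx j
          rw [hF, Finset.mem_filter] at this
          exact Nat.le_floor this.2.le
      _ = s * ⌊δ * N⌋₊ := by simp)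
  have hTc : (((range (s * ⌊δ * N⌋₊ + 1)).card : ℕ) : ℝ) ≤ ((s:ℝ) + 1) * (δ * N) := by
    rw [Finset.card_range]
    push_cast
    have := Nat.floor_le (by positivity : 0 ≤ δ * (N:ℝ))
    nlinarith
  have hE : (energy a s : ℝ) ≤ K * (k:ℝ) ^ (2 * s) / N := by
    rw [le_div_iff₀ hN0, mul_comm]
    exact ha.2
  have hfin : (F.card : ℝ) ^ (2 * s) ≤ (ε * k) ^ (2 * s) := by
    calc (F.card : ℝ) ^ (2 * s) ≤ ((range (s * ⌊δ * N⌋₊ + 1)).card : ℕ) * energy a s := hsub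
      _ ≤ (((s:ℝ) + 1) * (δ * N)) * (K * (k:ℝ) ^ (2 * s) / N) :=
          mul_le_mul hTc hE (Nat.cast_nonneg _) (by positivity)
      _ = (δ * (((s:ℝ) + 1) * K)) * (k:ℝ) ^ (2 * s) := by field_simp
      _ ≤ ε ^ (2 * s) * (k:ℝ) ^ (2 * s) :=
          mul_le_mul_of_nonneg_right hδ2 (by positivity)
      _ = (ε * k) ^ (2 * s) := by rw [mul_pow]
  exact le_of_pow_le_pow_left₀ (by omega) (by positivity) hfin

end Pool.Agent.Lib.MP_629a14_nt.En
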