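import Pool.Agent.Lib.MP_629a14_nt.En.Card

/-! Large prime factors of the members of a family of small energy. -/

set_option autoImplicit false

namespace Pool.Agent.Lib.MP_629a14_nt.En

open Finset

/-- tail of a convergent series -/
private theorem CardBad_tail {θ δ : ℝ} (hθ : 0 < θ) (hδ : 0 < δ) :
    ∃ v₀ : ℕ, ∀ T : Finset ℕ, (∀ n ∈ T, v₀ < n) → ∑ n ∈ T, (n : ℝ) ^ (-(1 + θ)) < δ := by
  have hs : Summable (fun n : ℕ => (n : ℝ) ^ (-(1 + θ))) :=
    Real.summable_nat_rpow.2 (by linarith)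
  obtain ⟨S, hS⟩ := summable_iff_vanishing_norm.1 hs δ hδ
  refine ⟨S.sup id, fun T hT => ?_⟩
  have h1 : Disjoint T S := by
    rw [Finset.disjoint_left]
    intro n hn hnS
    have h2 := hT n hn
    have h3 : id n ≤ S.sup id := Finset.le_sup hnS
    simp only [id] at h3
    omega
  exact lt_of_le_of_lt (le_abs_self _) (hS T h1)

/-- By `div_card`, `∑_i ∑_{p ∣ a_i, p > v} 1/p = ∑_{v < p ≤ N} (1/p) #{i : p ∣ a_i} ≤
C k ∑_{p > v} p ^ (-1 - 1/(2s))`, a tail of a convergent series; then Markov's inequality. -/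
theorem bad_card (s : ℕ) (hs : 1 ≤ s) (K ε τ : ℝ) (hK : 0 < K) (hε : 0 < ε) (hτ : 0 < τ) :
    ∃ v₀ : ℕ, ∀ v : ℕ, v₀ ≤ v → ∀ (N k : ℕ) (a : Fin k → ℕ), Fam s K N k a →
      (((univ : Finset (Fin k)).filter (fun i =>
        τ < ∑ p ∈ (a i).primeFactors.filter (fun p => v < p), 1 / (p : ℝ))).card : ℝ) ≤ ε * k := by
  classical
  have hs0 : (0 : ℝ) < s := by exact_mod_cast hs
  set θ : ℝ := 1 / (2 * s : ℝ) with hθdef
  have hθ : 0 < θ := by positivity
  set A : ℝ := ((s : ℝ) + 1) * K with hA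
  have hA0 : 0 < A := by positivity
  have hAθ : 0 < A ^ θ := Real.rpow_pos_of_pos hA0 θ
  obtain ⟨v₀, hv₀⟩ := CardBad_tail (δ := ε * τ / A ^ θ) hθ (by positivity)
  refine ⟨v₀, fun v hv N k a ha => ?_⟩
  set P : Finset ℕ := (range (N + 1)).filter (fun p => p.Prime ∧ v < p) with hP
  have hsum : ∀ i : Fin k, ∑ p ∈ (a i).primeFactors.filter (fun p => v < p), 1 / (p : ℝ) =
      ∑ p ∈ P, if p ∣ a i then 1 / (p : ℝ) else 0 := by
    intro i
    rw [← Finset.sum_filter]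
    refine Finset.sum_congr ?_ fun _ _ => rfl
    ext p
    simp only [mem_filter, Nat.mem_primeFactors, hP, mem_range]
    obtain ⟨h1, h2⟩ := ha.1 i
    constructor
    · rintro ⟨⟨hp, hd, _⟩, hvp⟩
      have := Nat.le_of_dvd (by omega) hd
      exact ⟨⟨by omega, hp, hvp⟩, hd⟩
    · rintro ⟨⟨_, hp, hvp⟩, hd⟩
      exact ⟨⟨hp, hd, by omega⟩, hvp⟩
  have htot : ∑ i : Fin k, ∑ p ∈ (a i).primeFactors.filter (fun p => v < p), 1 / (p : ℝ) ≤
      ε * τ * k := by
    have h1 : ∑ i : Fin k, ∑ p ∈ (a i).primeFactors.filter (fun p => v < p), 1 / (p : ℝ) =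
        ∑ p ∈ P, (((univ : Finset (Fin k)).filter (fun i => p ∣ a i)).card : ℝ) * (1 / (p : ℝ)) := by
      rw [Finset.sum_congr rfl fun i _ => hsum i, Finset.sum_comm]
      refine Finset.sum_congr rfl fun p _ => ?_
      rw [← Finset.sum_filter, Finset.sum_const, nsmul_eq_mul]
    rw [h1]
    have h2 : ∀ p ∈ P, (((univ : Finset (Fin k)).filter (fun i => p ∣ a i)).card : ℝ) *
        (1 / (p : ℝ)) ≤ A ^ θ * k * (p : ℝ) ^ (-(1 + θ)) := by
      intro p hp
      simp only [hP, mem_filter, mem_range] at hp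
      obtain ⟨hpN, hpp, hvp⟩ := hp
      have hp0 : (0 : ℝ) < p := by exact_mod_cast hpp.pos
      have h3 := div_card s hs K hK N k a ha p hpp.one_lt.le (by omega)
      have h4 : (((s : ℝ) + 1) * K / p) ^ (1 / (2 * s : ℝ)) = A ^ θ * (p : ℝ) ^ (-θ) := by
        rw [← hA, ← hθdef, Real.div_rpow hA0.le hp0.le, Real.rpow_neg hp0.le, div_eq_mul_inv]
      rw [h4] at h3
      have h5 : (p : ℝ) ^ (-(1 + θ)) = (p : ℝ) ^ (-θ) * (1 / p) := by
        rw [show -(1 + θ) = -θ + (-1) by ring, Real.rpow_add hp0, Real.rpow_neg_one, one_div]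
      rw [h5]
      calc _ ≤ A ^ θ * (p : ℝ) ^ (-θ) * k * (1 / (p : ℝ)) :=
            mul_le_mul_of_nonneg_right h3 (by positivity)
        _ = _ := by ring
    refine (Finset.sum_le_sum h2).trans ?_
    rw [← Finset.mul_sum]
    have h6 := (hv₀ P (by
      intro n hn
      simp only [hP, mem_filter] at hn
      omega)).le
    calc A ^ θ * k * ∑ p ∈ P, (p : ℝ) ^ (-(1 + θ)) ≤ A ^ θ * k * (ε * τ / A ^ θ) :=
          mul_le_mul_of_nonneg_left h6 (by positivity)
      _ = ε * τ * k := by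
        field_simp
  set B : Finset (Fin k) := (univ : Finset (Fin k)).filter (fun i =>
        τ < ∑ p ∈ (a i).primeFactors.filter (fun p => v < p), 1 / (p : ℝ)) with hB
  have hnn : ∀ i : Fin k, 0 ≤ ∑ p ∈ (a i).primeFactors.filter (fun p => v < p), 1 / (p : ℝ) :=
    fun i => Finset.sum_nonneg fun p _ => by positivity
  have h7 : (B.card : ℝ) * τ ≤ ε * τ * k := by
    calc (B.card : ℝ) * τ = ∑ _i ∈ B, τ := by rw [Finset.sum_const, nsmul_eq_mul]
      _ ≤ ∑ i ∈ B, ∑ p ∈ (a i).primeFactors.filter (fun p => v < p), 1 / (p : ℝ) := by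
        refine Finset.sum_le_sum fun i hi => ?_
        rw [hB, mem_filter] at hi
        exact hi.2.le
      _ ≤ ∑ i : Fin k, ∑ p ∈ (a i).primeFactors.filter (fun p => v < p), 1 / (p : ℝ) :=
        Finset.sum_le_sum_of_subset_of_nonneg (Finset.subset_univ _) fun i _ _ => hnn i
      _ ≤ _ := htot
  have h8 : (B.card : ℝ) * τ ≤ (ε * k) * τ := by linarith
  exact le_of_mul_le_mul_right h8 hτ

end Pool.Agent.Lib.MP_629a14_nt.En
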