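import Pool.Agent.Lib.MP_629a14_nt.En.Defs
import Pool.Agent.Lib.MP_629a14_nt.Rob.ConvL2

/-! Fourier inversion for convolutions. -/

set_option autoImplicit false

namespace Pool.Agent.Lib.MP_629a14_nt.En

open Finset Pool.Agent.Lib.MP_629a14_nt Pool.Agent.Lib.MP_629a14_nt.Rob

private theorem orth (N n m m' : ℕ) (hn : n ≤ N) (hm : m ∈ Icc 1 N) (hm' : m' ∈ Icc 1 N) :
    ∑ h ∈ range (2 * N + 1), ee (m * fr N h) * ee (m' * fr N h) * ee (-(n * fr N h)) =
      if m + m' = n then (2 * (N : ℂ) + 1) else 0 := by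
  rw [mem_Icc] at hm hm'
  have h1 : ∀ h ∈ range (2 * N + 1), ee (m * fr N h) * ee (m' * fr N h) * ee (-(n * fr N h)) =
      ee ((h : ℝ) * ((((n : ℤ) - m - m' : ℤ) : ℝ) / ((2 * N + 1 : ℕ) : ℝ))) := by
    intro h _
    rw [← ee_add, ← ee_add]
    congr 1
    unfold fr
    push_cast
    ring
  rw [sum_congr rfl h1, sum_ee_range (2 * N + 1) (by omega)]
  by_cases hc : m + m' = n
  · rw [if_pos hc, if_pos]
    · push_cast
      ring
    · have : (n : ℤ) - m - m' = 0 := by omega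
      rw [this]
      exact dvd_zero _
  · rw [if_neg hc, if_neg]
    intro hdvd
    have h2 : (n : ℤ) - m - m' = 0 := by
      refine Int.eq_zero_of_abs_lt_dvd hdvd ?_
      rw [abs_lt]
      push_cast
      omega
    omega

/-- Orthogonality modulo `2 N + 1` (`sum_ee_range` in `Fourier.lean`; compare `rep_fourier` in
`WienerNorm.lean` and `convL2` in `Rob/ConvL2.lean`). For `n ≤ N` and `m₁, m₂ ∈ [1, N]`, the congruence
`m₁ + m₂ ≡ n` mod `2 N + 1` means `m₁ + m₂ = n`. -/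
theorem conv_fourier (N : ℕ) (f g : ℕ → ℝ) (n : ℕ) (hn : n ≤ N) :
    ((∑ m ∈ Ico 1 n, f m * g (n - m) : ℝ) : ℂ) =
      (1 / (2 * (N : ℂ) + 1)) * ∑ h ∈ range (2 * N + 1),
        (∑ m ∈ Icc 1 N, (f m : ℂ) * ee (m * fr N h)) *
          (∑ m ∈ Icc 1 N, (g m : ℂ) * ee (m * fr N h)) * ee (-(n * fr N h)) := by
  have hN : (2 * (N : ℂ) + 1) ≠ 0 := by
    have : ((2 * N + 1 : ℕ) : ℂ) ≠ 0 := Nat.cast_ne_zero.2 (by omega)
    push_cast at this
    exact this
  have h1 : ∀ h ∈ range (2 * N + 1), (∑ m ∈ Icc 1 N, (f m : ℂ) * ee (m * fr N h)) *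
          (∑ m ∈ Icc 1 N, (g m : ℂ) * ee (m * fr N h)) * ee (-(n * fr N h)) =
      ∑ m ∈ Icc 1 N, ∑ m' ∈ Icc 1 N, ((f m : ℂ) * (g m' : ℂ)) *
        (ee (m * fr N h) * ee (m' * fr N h) * ee (-(n * fr N h))) := by
    intro h _
    rw [sum_mul_sum, sum_mul]
    refine sum_congr rfl fun m _ => ?_
    rw [sum_mul]
    refine sum_congr rfl fun m' _ => ?_
    ring
  rw [sum_congr rfl h1, sum_comm]
  have h2 : ∀ m ∈ Icc 1 N, ∑ h ∈ range (2 * N + 1), ∑ m' ∈ Icc 1 N, ((f m : ℂ) * (g m' : ℂ)) *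
        (ee (m * fr N h) * ee (m' * fr N h) * ee (-(n * fr N h))) =
      ∑ m' ∈ Icc 1 N, if m + m' = n then (2 * (N : ℂ) + 1) * ((f m : ℂ) * (g m' : ℂ)) else 0 := by
    intro m hm
    rw [sum_comm]
    refine sum_congr rfl fun m' hm' => ?_
    rw [← mul_sum, orth N n m m' hn hm hm']
    split_ifs
    · ring
    · ring
  rw [sum_congr rfl h2]
  have h3 : ∑ m ∈ Icc 1 N, ∑ m' ∈ Icc 1 N,
      (if m + m' = n then (2 * (N : ℂ) + 1) * ((f m : ℂ) * (g m' : ℂ)) else 0) =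
      (2 * (N : ℂ) + 1) * ∑ m ∈ Ico 1 n, (f m : ℂ) * (g (n - m) : ℂ) := by
    rw [mul_sum, ← sum_product', ← sum_filter]
    refine sum_nbij' (fun p => p.1) (fun m => (m, n - m)) ?_ ?_ ?_ ?_ ?_
    · intro p hp
      rw [mem_filter, mem_product, mem_Icc, mem_Icc] at hp
      rw [mem_Ico]
      omega
    · intro m hm
      rw [mem_Ico] at hm
      rw [mem_filter, mem_product, mem_Icc, mem_Icc]
      show ((1 ≤ m ∧ m ≤ N) ∧ (1 ≤ n - m ∧ n - m ≤ N)) ∧ m + (n - m) = n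
      omega
    · intro p hp
      rw [mem_filter, mem_product, mem_Icc, mem_Icc] at hp
      refine Prod.ext rfl ?_
      show n - p.1 = p.2
      omega
    · intro m _
      rfl
    · intro p hp
      rw [mem_filter, mem_product, mem_Icc, mem_Icc] at hp
      have : p.2 = n - p.1 := by omega
      rw [this]
  rw [h3, ← mul_assoc, one_div_mul_cancel hN, one_mul]
  push_cast
  rfl

private theorem ff_fourier (N : ℕ) (α : ℝ) :
    ∑ m ∈ Icc 1 N, (ff N m : ℂ) * ee (m * α) = (Real.log N : ℂ) * SP N α := by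
  rw [SP, mul_sum, sum_filter]
  refine sum_congr rfl fun m _ => ?_
  rw [ff]
  split_ifs
  · rfl
  · simp

/-- `ff * ff - nu * nu = (ff - nu) * (ff + nu)` for convolutions: apply `conv_fourier` twice
(`gh_eq` for the Fourier transform of `ff - nu`, similarly for `gp`). -/
theorem dd_fourier (v N n : ℕ) (hn : n ≤ N) :
    (DD v N n : ℂ) = (1 / (2 * (N : ℂ) + 1)) * ∑ h ∈ range (2 * N + 1),
      gh v N (fr N h) * gp v N (fr N h) * ee (-(n * fr N h)) := by
  have h1 := conv_fourier N (ff N) (ff N) n hn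
  have h2 := conv_fourier N (nu v) (nu v) n hn
  have h3 : (DD v N n : ℂ) = ((∑ m ∈ Ico 1 n, ff N m * ff N (n - m) : ℝ) : ℂ) -
      ((∑ m ∈ Ico 1 n, nu v m * nu v (n - m) : ℝ) : ℂ) := by
    rw [DD, sum_sub_distrib]
    push_cast
    rfl
  rw [h3, h1, h2, ← mul_sub, ← sum_sub_distrib]
  congr 1
  refine sum_congr rfl fun h _ => ?_
  rw [ff_fourier, gh, gp, SN]
  ring

/-- Take `c i = ±1` the sign of `DD v N (a i)`; `∑_i c_i e(-a_i x)` is the complex conjugate of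
`∑_i c_i e(a_i x)`. -/
theorem dd_sum_le (v N k : ℕ) (a : Fin k → ℕ) (ha : ∀ i, a i ≤ N) :
    ∃ c : Fin k → ℝ, (∀ i, |c i| ≤ 1) ∧ ∑ i, |DD v N (a i)| ≤
      (1 / (2 * (N : ℝ) + 1)) * ∑ h ∈ range (2 * N + 1),
        ‖gh v N (fr N h)‖ * ‖gp v N (fr N h)‖ * ‖∑ i, (c i : ℂ) * ee (a i * fr N h)‖ := by
  refine ⟨fun i => if 0 ≤ DD v N (a i) then 1 else -1, ?_, ?_⟩
  · intro i
    simp only
    split_ifs
    · simp
    · simp
  · set c : Fin k → ℝ := fun i => if 0 ≤ DD v N (a i) then 1 else -1 with hc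
    have h1 : ∀ i, |DD v N (a i)| = c i * DD v N (a i) := by
      intro i
      rw [hc]
      simp only
      split_ifs with h
      · rw [abs_of_nonneg h, one_mul]
      · rw [abs_of_neg (not_le.1 h)]
        ring
    have h2 : ((∑ i, |DD v N (a i)| : ℝ) : ℂ) = (1 / (2 * (N : ℂ) + 1)) *
        ∑ h ∈ range (2 * N + 1), gh v N (fr N h) * gp v N (fr N h) *
          ∑ i, (c i : ℂ) * ee (-(a i * fr N h)) := by
      rw [Complex.ofReal_sum]
      have h3 : ∀ i ∈ (univ : Finset (Fin k)), ((|DD v N (a i)| : ℝ) : ℂ) =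
          (1 / (2 * (N : ℂ) + 1)) * ∑ h ∈ range (2 * N + 1),
            gh v N (fr N h) * gp v N (fr N h) * ((c i : ℂ) * ee (-(a i * fr N h))) := by
        intro i _
        rw [h1 i, Complex.ofReal_mul, dd_fourier v N (a i) (ha i), ← mul_assoc, mul_comm (c i : ℂ),
          mul_assoc, mul_sum]
        congr 1
        refine sum_congr rfl fun h _ => ?_
        ring
      rw [sum_congr rfl h3, ← mul_sum, sum_comm]
      congr 1
      refine sum_congr rfl fun h _ => ?_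
      rw [mul_sum]
    have h4 : (∑ i, |DD v N (a i)| : ℝ) = ‖((∑ i, |DD v N (a i)| : ℝ) : ℂ)‖ := by
      rw [Complex.norm_real, Real.norm_eq_abs, abs_of_nonneg]
      exact sum_nonneg fun i _ => abs_nonneg _
    rw [h4, h2, norm_mul]
    have h5 : ‖(1 / (2 * (N : ℂ) + 1))‖ = 1 / (2 * (N : ℝ) + 1) := by
      have h6 : (1 / (2 * (N : ℂ) + 1)) = ((1 / (2 * (N : ℝ) + 1) : ℝ) : ℂ) := by
        push_cast
        rfl
      rw [h6, Complex.norm_real, Real.norm_eq_abs, abs_of_nonneg]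
      positivity
    rw [h5]
    refine mul_le_mul_of_nonneg_left ?_ (by positivity)
    refine (norm_sum_le _ _).trans (sum_le_sum fun h _ => ?_)
    rw [norm_mul, norm_mul]
    refine mul_le_mul_of_nonneg_left (le_of_eq ?_) (by positivity)
    rw [← RCLike.norm_conj (∑ i, (c i : ℂ) * ee (-(a i * fr N h))), map_sum]
    congr 1
    refine sum_congr rfl fun i _ => ?_
    rw [map_mul, conj_ee, Complex.conj_ofReal, neg_neg]

end Pool.Agent.Lib.MP_629a14_nt.En
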