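import Pool.Agent.Lib.MP_629a14_nt.En.Defs
import Pool.Agent.Lib.MP_629a14_nt.Decomp

/-! The moment of order `2 s` of the Fourier transform of a family. -/

set_option autoImplicit false

namespace Pool.Agent.Lib.MP_629a14_nt.En

open Finset Pool.Agent.Lib.MP_629a14_nt Pool.Agent.Lib.MP_629a14_nt.Rob

private theorem prod_ee {ι : Type} (T : Finset ι) (f : ι → ℝ) :
    ∏ j ∈ T, ee (f j) = ee (∑ j ∈ T, f j) := by
  classical
  induction T using Finset.induction with
  | empty =>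
    rw [prod_empty, sum_empty]
    unfold ee
    simp
  | insert x T hx ih => rw [prod_insert hx, sum_insert hx, ee_add, ih]

private theorem sum_fib_sq {k : ℕ} (a : Fin k → ℕ) (s N : ℕ) (ha : ∀ i, a i ≤ N) :
    ∑ t ∈ range (s * N + 1),
      ((univ : Finset (Fin s → Fin k)).filter (fun y => ∑ j, a (y j) = t)).card ^ 2 =
      energy a s := by
  classical
  unfold energy
  have hS : ∀ y : Fin s → Fin k, ∑ j, a (y j) ≤ s * N := by
    intro y
    calc ∑ j, a (y j) ≤ ∑ _j : Fin s, N := sum_le_sum fun j _ => ha _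
      _ = s * N := by rw [sum_const, card_univ, Fintype.card_fin, smul_eq_mul]
  rw [card_eq_sum_card_fiberwise (f := fun xy : (Fin s → Fin k) × (Fin s → Fin k) =>
    ∑ j, a (xy.1 j)) (t := range (s * N + 1))]
  · refine sum_congr rfl fun t _ => ?_
    rw [sq, ← card_product]
    congr 1
    ext xy
    simp only [mem_product, mem_filter, mem_univ, true_and]
    constructor
    · rintro ⟨h1, h2⟩
      exact ⟨h1.trans h2.symm, h1⟩
    · rintro ⟨h1, h2⟩
      exact ⟨h2, h1.symm.trans h2⟩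
  · intro xy _
    have := hS xy.1
    simp only [coe_range, Set.mem_Iio]
    omega

/-- Put `M = s (2 N + 1)`; the points `h / (2 N + 1)`, `h < 2 N + 1`, are the points `h' / M` with
`h' = s h < M`, so the sum is at most the sum over all `h' < M`. There,
`(∑_i c_i e(a_i x)) ^ s = ∑_{t ≤ s N} b_t e(t x)` with `b_t = ∑_{y : ∑ a (y j) = t} ∏ c (y j)`
(`Finset.sum_pow'` / `Fintype.sum_pow`), and `s N < M`, so `parseval_poly` (`Decomp.lean`) gives
`∑_{h' < M} = M ∑_t |b_t| ^ 2`, where `|b_t| ≤ #{y : ∑ a (y j) = t}` and `∑_t (#{y : ...}) ^ 2 = energy a s`.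
(Note that `fr N h = -(h / (2 N + 1))`: conjugate, as in `ConvL2.pars`.) -/
theorem moment_energy {k : ℕ} (a : Fin k → ℕ) (s N : ℕ) (hs : 1 ≤ s) (ha : ∀ i, a i ≤ N)
    (c : Fin k → ℝ) (hc : ∀ i, |c i| ≤ 1) :
    ∑ h ∈ range (2 * N + 1), ‖∑ i, (c i : ℂ) * ee (a i * fr N h)‖ ^ (2 * s) ≤
      s * (2 * (N : ℝ) + 1) * energy a s := by
  classical
  set M : ℕ := s * (2 * N + 1) with hM
  have hMpos : 0 < M := Nat.mul_pos (by omega) (by omega)
  have hMr : (M : ℝ) ≠ 0 := by exact_mod_cast hMpos.ne'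
  have hSle : ∀ y : Fin s → Fin k, ∑ j, a (y j) ≤ s * N := by
    intro y
    calc ∑ j, a (y j) ≤ ∑ _j : Fin s, N := sum_le_sum fun j _ => ha _
      _ = s * N := by rw [sum_const, card_univ, Fintype.card_fin, smul_eq_mul]
  let Fb : ℕ → Finset (Fin s → Fin k) := fun t => univ.filter (fun y => ∑ j, a (y j) = t)
  let b : ℕ → ℂ := fun t => ∑ y ∈ Fb t, ∏ j, (c (y j) : ℂ)
  have hpow : ∀ n : ℕ, (∑ i, (c i : ℂ) * ee (((a i : ℝ) / M) * n)) ^ s =
      ∑ t ∈ range (s * N + 1), b t * ee (((t : ℝ) / M) * n) := by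
    intro n
    rw [Fintype.sum_pow, ← sum_fiberwise_of_maps_to (s := univ) (t := range (s * N + 1))
      (g := fun y : Fin s → Fin k => ∑ j, a (y j))]
    · refine sum_congr rfl fun t _ => ?_
      show _ = (∑ y ∈ Fb t, ∏ j, (c (y j) : ℂ)) * _
      rw [sum_mul]
      refine sum_congr rfl fun y hy => ?_
      have hyt : ∑ j, a (y j) = t := (mem_filter.1 hy).2
      rw [prod_mul_distrib, prod_ee]
      congr 2
      rw [← hyt]
      push_cast
      rw [sum_div, sum_mul]
    · intro y _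
      have := hSle y
      rw [mem_range]
      omega
  have hterm : ∀ h ∈ range (2 * N + 1), ‖∑ i, (c i : ℂ) * ee (a i * fr N h)‖ ^ (2 * s) =
      ‖∑ t ∈ range (s * N + 1), b t * ee (((t : ℝ) / M) * ((s * h : ℕ) : ℝ))‖ ^ 2 := by
    intro h _
    rw [← hpow, norm_pow, ← pow_mul, mul_comm s 2]
    congr 1
    rw [← RCLike.norm_conj (∑ i, (c i : ℂ) * ee (a i * fr N h)), map_sum]
    congr 1
    refine sum_congr rfl fun i _ => ?_
    rw [map_mul, conj_ee, Complex.conj_ofReal]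
    congr 2
    unfold fr
    have hs0 : (s : ℝ) ≠ 0 := by exact_mod_cast (by omega : s ≠ 0)
    have hN0 : (2 * (N : ℝ) + 1) ≠ 0 := by positivity
    rw [hM]
    push_cast
    field_simp
  rw [sum_congr rfl hterm]
  have hinj : Set.InjOn (fun h : ℕ => s * h) (range (2 * N + 1) : Set ℕ) := by
    intro x _ y _ hxy
    exact Nat.eq_of_mul_eq_mul_left (by omega) hxy
  have hle : ∑ h ∈ range (2 * N + 1),
      ‖∑ t ∈ range (s * N + 1), b t * ee (((t : ℝ) / M) * ((s * h : ℕ) : ℝ))‖ ^ 2 ≤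
      ∑ n ∈ range M, ‖∑ t ∈ range (s * N + 1), b t * ee (((t : ℝ) / M) * (n : ℝ))‖ ^ 2 := by
    rw [← sum_image (f := fun n : ℕ =>
      ‖∑ t ∈ range (s * N + 1), b t * ee (((t : ℝ) / M) * (n : ℝ))‖ ^ 2)
      (g := fun h : ℕ => s * h) hinj]
    refine sum_le_sum_of_subset_of_nonneg ?_ fun _ _ _ => by positivity
    intro n hn
    obtain ⟨h, hh, rfl⟩ := mem_image.1 hn
    rw [mem_range] at hh ⊢
    exact Nat.mul_lt_mul_of_pos_left hh (by omega)
  refine hle.trans ?_
  have hsub : range (s * N + 1) ⊆ range M := by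
    intro t ht
    rw [mem_range] at ht ⊢
    have : s * (2 * N + 1) = s * N + s * N + s := by ring
    omega
  rw [parseval_poly hMpos _ hsub b]
  have hb : ∀ t, ‖b t‖ ≤ (Fb t).card := by
    intro t
    calc ‖b t‖ ≤ ∑ y ∈ Fb t, ‖∏ j, (c (y j) : ℂ)‖ := norm_sum_le _ _
      _ ≤ ∑ _y ∈ Fb t, (1 : ℝ) := by
        refine sum_le_sum fun y _ => ?_
        rw [norm_prod]
        refine prod_le_one (fun _ _ => norm_nonneg _) fun j _ => ?_
        rw [Complex.norm_real, Real.norm_eq_abs]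
        exact hc _
      _ = (Fb t).card := by rw [sum_const, nsmul_eq_mul, mul_one]
  have h2 : ∑ t ∈ range (s * N + 1), ‖b t‖ ^ 2 ≤ (energy a s : ℝ) := by
    rw [← sum_fib_sq a s N ha]
    push_cast
    exact sum_le_sum fun t _ => pow_le_pow_left₀ (norm_nonneg _) (hb t) 2
  have h3 : (M : ℝ) = s * (2 * (N : ℝ) + 1) := by rw [hM]; push_cast; ring
  rw [h3]
  exact mul_le_mul_of_nonneg_left h2 (by positivity)

end Pool.Agent.Lib.MP_629a14_nt.En
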