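import Mathlib

/-! Hölder's inequality with three factors, and the loss of a power of the supremum. -/

set_option autoImplicit false

namespace Pool.Agent.Lib.MP_629a14_nt.En

open Finset

private lemma cs_step {ι : Type*} (H : Finset ι) (x y : ι → ℝ) (hx : ∀ h ∈ H, 0 ≤ x h)
    (hy : ∀ h ∈ H, 0 ≤ y h) (q r : ℝ) (hq : 0 < q) (hr : r = 2 * q) :
    (∑ h ∈ H, (x h * y h) ^ q) ^ (1 / q) ≤
      (∑ h ∈ H, x h ^ r) ^ (1 / r) * (∑ h ∈ H, y h ^ r) ^ (1 / r) := by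
  have hX : 0 ≤ ∑ h ∈ H, x h ^ r := Finset.sum_nonneg (fun h hh => Real.rpow_nonneg (hx h hh) _)
  have hY : 0 ≤ ∑ h ∈ H, y h ^ r := Finset.sum_nonneg (fun h hh => Real.rpow_nonneg (hy h hh) _)
  have h1 : ∑ h ∈ H, (x h * y h) ^ q ≤
      (∑ h ∈ H, x h ^ r) ^ (1 / (2:ℝ)) * (∑ h ∈ H, y h ^ r) ^ (1 / (2:ℝ)) := by
    have h2 := Real.inner_le_Lp_mul_Lq_of_nonneg H (f := fun h => x h ^ q) (g := fun h => y h ^ q)
      (p := 2) (q := 2) (by constructor <;> norm_num)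
      (fun h hh => Real.rpow_nonneg (hx h hh) _) (fun h hh => Real.rpow_nonneg (hy h hh) _)
    have e1 : ∑ h ∈ H, (x h * y h) ^ q = ∑ h ∈ H, x h ^ q * y h ^ q :=
      Finset.sum_congr rfl (fun h hh => Real.mul_rpow (hx h hh) (hy h hh))
    have e2 : ∑ h ∈ H, x h ^ r = ∑ h ∈ H, (x h ^ q) ^ (2:ℝ) :=
      Finset.sum_congr rfl (fun h hh => by rw [← Real.rpow_mul (hx h hh), hr, mul_comm 2 q])
    have e3 : ∑ h ∈ H, y h ^ r = ∑ h ∈ H, (y h ^ q) ^ (2:ℝ) :=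
      Finset.sum_congr rfl (fun h hh => by rw [← Real.rpow_mul (hy h hh), hr, mul_comm 2 q])
    rw [e1, e2, e3]
    exact h2
  have h0 : 0 ≤ ∑ h ∈ H, (x h * y h) ^ q :=
    Finset.sum_nonneg (fun h hh => Real.rpow_nonneg (mul_nonneg (hx h hh) (hy h hh)) _)
  calc (∑ h ∈ H, (x h * y h) ^ q) ^ (1 / q)
      ≤ ((∑ h ∈ H, x h ^ r) ^ (1 / (2:ℝ)) * (∑ h ∈ H, y h ^ r) ^ (1 / (2:ℝ))) ^ (1 / q) :=
        Real.rpow_le_rpow h0 h1 (by positivity)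
    _ = (∑ h ∈ H, x h ^ r) ^ (1 / r) * (∑ h ∈ H, y h ^ r) ^ (1 / r) := by
        rw [Real.mul_rpow (Real.rpow_nonneg hX _) (Real.rpow_nonneg hY _),
          ← Real.rpow_mul hX, ← Real.rpow_mul hY]
        have : 1 / (2:ℝ) * (1 / q) = 1 / r := by rw [hr]; field_simp
        rw [this]

/-- Hölder with `1 / (2 s) + 1 / r + 1 / r = 1`, `r = 4 s / (2 s - 1)`: apply
`Real.inner_le_Lp_mul_Lq_of_nonneg` with exponents `2 s` and `2 s / (2 s - 1)` to `z` and `x y`, then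
Cauchy-Schwarz to `(x y) ^ (r / 2)`. -/
theorem holder3 {ι : Type*} (H : Finset ι) (x y z : ι → ℝ) (hx : ∀ h ∈ H, 0 ≤ x h)
    (hy : ∀ h ∈ H, 0 ≤ y h) (hz : ∀ h ∈ H, 0 ≤ z h) (s : ℕ) (hs : 1 ≤ s) (r : ℝ)
    (hr : r * (2 * s - 1) = 4 * s) :
    ∑ h ∈ H, x h * y h * z h ≤ (∑ h ∈ H, x h ^ r) ^ (1 / r) * (∑ h ∈ H, y h ^ r) ^ (1 / r) *
      (∑ h ∈ H, z h ^ (2 * s)) ^ (1 / (2 * s : ℝ)) := by
  have hs1 : (1:ℝ) ≤ s := by exact_mod_cast hs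
  have hden : (0:ℝ) < 2 * s - 1 := by linarith
  have hq : (0:ℝ) < 2 * s / (2 * s - 1) := by positivity
  have hrq : r = 2 * (2 * s / (2 * s - 1)) := by
    field_simp
    linarith
  have hol := Real.inner_le_Lp_mul_Lq_of_nonneg H (f := fun h => x h * y h) (g := z)
      (p := 2 * s / (2 * s - 1)) (q := 2 * s)
      (by
        refine ⟨?_, hq, by positivity⟩
        field_simp
        ring)
      (fun h hh => mul_nonneg (hx h hh) (hy h hh)) hz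
  have hcs := cs_step H x y hx hy (2 * s / (2 * s - 1)) r hq hrq
  have ez : ∑ h ∈ H, z h ^ (2 * (s:ℝ)) = ∑ h ∈ H, z h ^ (2 * s) := by
    refine Finset.sum_congr rfl (fun h _ => ?_)
    rw [← Real.rpow_natCast]
    push_cast
    rfl
  rw [ez] at hol
  refine hol.trans ?_
  refine mul_le_mul_of_nonneg_right hcs ?_
  exact Real.rpow_nonneg (Finset.sum_nonneg (fun h hh => pow_nonneg (hz h hh) _)) _

/-- `x ^ r ≤ b ^ (r - p) x ^ p` for `0 ≤ x ≤ b`. -/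
theorem sup_rpow {ι : Type*} (H : Finset ι) (x : ι → ℝ) (hx : ∀ h ∈ H, 0 ≤ x h) (b p r : ℝ)
    (hp : 0 < p) (hr : p ≤ r) (hb : ∀ h ∈ H, x h ≤ b) (hb0 : 0 ≤ b) :
    ∑ h ∈ H, x h ^ r ≤ b ^ (r - p) * ∑ h ∈ H, x h ^ p := by
  rw [Finset.mul_sum]
  refine Finset.sum_le_sum (fun h hh => ?_)
  rcases (hx h hh).eq_or_lt with h0 | h0
  · rw [← h0, Real.zero_rpow (by linarith : r ≠ 0), Real.zero_rpow hp.ne']
    simp
  · have e : x h ^ r = x h ^ (r - p) * x h ^ p := by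
      rw [← Real.rpow_add h0]; congr 1; ring
    rw [e]
    refine mul_le_mul_of_nonneg_right ?_ (Real.rpow_nonneg h0.le _)
    exact Real.rpow_le_rpow h0.le (hb h hh) (by linarith)

end Pool.Agent.Lib.MP_629a14_nt.En
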