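import Pool.Agent.Lib.MP_629a14_nt.En.Moment
import Pool.Agent.Lib.MP_629a14_nt.En.Energy
import Pool.Agent.Lib.MP_629a14_nt.En.Conv
import Pool.Agent.Lib.MP_629a14_nt.En.Holder
import Pool.Agent.Lib.MP_629a14_nt.Rob.Sup

/-! The mean deviation over a family of small energy. -/

set_option autoImplicit false

namespace Pool.Agent.Lib.MP_629a14_nt.En

open Finset Pool.Agent.Lib.MP_629a14_nt Pool.Agent.Lib.MP_629a14_nt.Rob

private theorem eventually_small (A c η : ℝ) (hA : 0 ≤ A) (hc : 0 < c) (hη : 0 < η) :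
    ∃ v₀ : ℕ, ∀ v : ℕ, v₀ ≤ v → A * (Real.log v) ^ 2 ≤ η * (v : ℝ) ^ c := by
  have h1 : (fun x : ℝ => (Real.log x) ^ (2 : ℝ)) =o[Filter.atTop] fun x : ℝ => x ^ c :=
    isLittleO_log_rpow_rpow_atTop 2 hc
  have h2 := h1.def (c := η / (A + 1)) (by positivity)
  rw [Filter.eventually_atTop] at h2
  obtain ⟨x₀, hx₀⟩ := h2
  refine ⟨⌈x₀⌉₊ + 1, fun v hv => ?_⟩
  have hv1 : x₀ ≤ v := (Nat.le_ceil x₀).trans (by exact_mod_cast (by omega : ⌈x₀⌉₊ ≤ v))
  have h3 := hx₀ v hv1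
  rw [Real.norm_eq_abs, Real.norm_eq_abs, Real.rpow_two, abs_of_nonneg (sq_nonneg _),
    abs_of_nonneg (by positivity)] at h3
  have hvc : 0 ≤ (v : ℝ) ^ c := by positivity
  calc A * (Real.log v) ^ 2 ≤ A * (η / (A + 1) * (v : ℝ) ^ c) :=
        mul_le_mul_of_nonneg_left h3 hA
    _ = (A / (A + 1)) * (η * (v : ℝ) ^ c) := by
        field_simp
    _ ≤ 1 * (η * (v : ℝ) ^ c) := by
        apply mul_le_mul_of_nonneg_right _ (by positivity)
        rw [div_le_one (by positivity)]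
        linarith
    _ = η * (v : ℝ) ^ c := one_mul _

private theorem root_X {r p δ C κ V n S : ℝ} (hδ : 0 < δ) (hp : p = 2 + δ) (hr : r = 2 + 2 * δ)
    (hC : 0 < C) (hκ : 1 ≤ κ) (hV : 0 < V) (hn : 0 < n) (hS0 : 0 ≤ S)
    (hS : S ≤ (2 / V * n) ^ (r - p) * (C * n ^ p * κ ^ p)) :
    S ^ (1 / r) ≤ (2 ^ δ * C) ^ (1 / r) * V ^ (-(δ / r)) * n * κ := by
  have hr0 : 0 < r := by rw [hr]; linarith
  have hκ0 : 0 < κ := by linarith
  have hrp : r - p = δ := by rw [hr, hp]; ring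
  have h1 : S ≤ (2 ^ δ * C) * V ^ (-δ) * n ^ r * κ ^ r := by
    refine hS.trans ?_
    rw [hrp, show (2 / V * n) = 2 * V⁻¹ * n by ring, Real.mul_rpow (by positivity) hn.le,
      Real.mul_rpow (by norm_num) (by positivity), Real.inv_rpow hV.le, ← Real.rpow_neg hV.le]
    have e1 : n ^ r = n ^ δ * n ^ p := by
      rw [← Real.rpow_add hn]; congr 1; rw [hr, hp]; ring
    have e2 : κ ^ p ≤ κ ^ r := Real.rpow_le_rpow_of_exponent_le hκ (by rw [hr, hp]; linarith)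
    rw [e1]
    calc 2 ^ δ * V ^ (-δ) * n ^ δ * (C * n ^ p * κ ^ p)
        = (2 ^ δ * C * V ^ (-δ) * (n ^ δ * n ^ p)) * κ ^ p := by ring
      _ ≤ (2 ^ δ * C * V ^ (-δ) * (n ^ δ * n ^ p)) * κ ^ r :=
          mul_le_mul_of_nonneg_left e2 (by positivity)
  calc S ^ (1 / r) ≤ ((2 ^ δ * C) * V ^ (-δ) * n ^ r * κ ^ r) ^ (1 / r) :=
        Real.rpow_le_rpow hS0 h1 (by positivity)
    _ = (2 ^ δ * C) ^ (1 / r) * V ^ (-(δ / r)) * n * κ := by
        rw [Real.mul_rpow (by positivity) (by positivity),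
          Real.mul_rpow (by positivity) (by positivity),
          Real.mul_rpow (by positivity) (by positivity), ← Real.rpow_mul hV.le,
          ← Real.rpow_mul hn.le, ← Real.rpow_mul hκ0.le, mul_one_div_cancel hr0.ne',
          Real.rpow_one, Real.rpow_one]
        congr 4
        ring

private theorem root_Y {r C κ n S : ℝ} (hr0 : 0 < r)
    (hC : 0 < C) (hκ : 1 ≤ κ) (hn : 0 < n) (hS0 : 0 ≤ S)
    (hS : S ≤ C * n ^ r * κ ^ r) : S ^ (1 / r) ≤ C ^ (1 / r) * n * κ := by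
  have hκ0 : 0 < κ := by linarith
  calc S ^ (1 / r) ≤ (C * n ^ r * κ ^ r) ^ (1 / r) := Real.rpow_le_rpow hS0 hS (by positivity)
    _ = C ^ (1 / r) * n * κ := by
        rw [Real.mul_rpow (by positivity) (by positivity),
          Real.mul_rpow (by positivity) (by positivity),
          ← Real.rpow_mul hn.le, ← Real.rpow_mul hκ0.le, mul_one_div_cancel hr0.ne',
          Real.rpow_one, Real.rpow_one]

private theorem root_Z {s : ℕ} (hs : 1 ≤ s) {K n k E S : ℝ} (hK : 0 < K) (hn : 1 ≤ n) (hk : 0 ≤ k)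
    (hE : 0 ≤ E) (hS0 : 0 ≤ S)
    (hS : S ≤ s * (2 * n + 1) * E) (hNE : n * E ≤ K * k ^ (2 * s)) :
    S ^ (1 / (2 * s : ℝ)) ≤ (3 * s * K) ^ (1 / (2 * s : ℝ)) * k := by
  have hs0 : (0 : ℝ) < s := by exact_mod_cast hs
  have h1 : S ≤ (3 * s * K) * k ^ (2 * s) := by
    calc S ≤ s * (2 * n + 1) * E := hS
      _ ≤ s * (3 * n) * E := by
          apply mul_le_mul_of_nonneg_right _ hE
          apply mul_le_mul_of_nonneg_left _ hs0.le
          linarith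
      _ = 3 * s * (n * E) := by ring
      _ ≤ 3 * s * (K * k ^ (2 * s)) := mul_le_mul_of_nonneg_left hNE (by positivity)
      _ = (3 * s * K) * k ^ (2 * s) := by ring
  calc S ^ (1 / (2 * s : ℝ)) ≤ ((3 * s * K) * k ^ (2 * s)) ^ (1 / (2 * s : ℝ)) :=
        Real.rpow_le_rpow hS0 h1 (by positivity)
    _ = (3 * s * K) ^ (1 / (2 * s : ℝ)) * k := by
        rw [Real.mul_rpow (by positivity) (by positivity)]
        congr 1
        rw [← Real.rpow_natCast, ← Real.rpow_mul hk]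
        push_cast
        rw [mul_one_div_cancel (by positivity), Real.rpow_one]

/-- Put `r = 4 s / (2 s - 1)`, `p = 2 + 1 / (2 s - 1)`, so `r - p = 1 / (2 s - 1) > 0` and `p > 2`.
`dd_sum_le`, `holder3`, `moment_energy`, `gh_moment` for the exponents `p` and `r`, `sup_rpow` with
`b = (2 / v) N` (`sup_le`): the sum is at most
`(1 / (2N+1)) · ((2 N / v) ^ (r - p) · C N ^ p κ ^ p) ^ (1/r) · (C' N ^ r κ ^ r) ^ (1/r) ·
(s (2 N + 1) E) ^ (1 / 2s)`, `κ = kap v`, and `(2 N + 1) E ≤ 3 N E ≤ 3 K k ^ (2 s)`; so at most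
`C'' · v ^ (-(r - p) / r) · κ ^ 2 · k · N`, and `κ ≤ C log v` (`wlog`). -/
theorem dev_small (s : ℕ) (hs : 1 ≤ s) (K η : ℝ) (hK : 0 < K) (hη : 0 < η) :
    ∃ v₀ : ℕ, ∀ v : ℕ, v₀ ≤ v → ∃ N₀ : ℕ, ∀ N : ℕ, N₀ ≤ N → ∀ (k : ℕ) (a : Fin k → ℕ),
      Fam s K N k a → ∑ i, |DD v N (a i)| ≤ η * k * N := by
  have hs1 : (1 : ℝ) ≤ s := by exact_mod_cast hs
  have hs0 : (0 : ℝ) < s := by linarith
  have h21 : (0 : ℝ) < 2 * s - 1 := by linarith
  obtain ⟨δ, hδ⟩ : ∃ δ : ℝ, δ = 1 / (2 * s - 1) := ⟨_, rfl⟩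
  have hδ0 : 0 < δ := by rw [hδ]; exact one_div_pos.2 h21
  obtain ⟨p, hp⟩ : ∃ p : ℝ, p = 2 + δ := ⟨_, rfl⟩
  obtain ⟨r, hr⟩ : ∃ r : ℝ, r = 2 + 2 * δ := ⟨_, rfl⟩
  have hr0 : 0 < r := by rw [hr]; linarith
  have hrs : r * (2 * s - 1) = 4 * s := by
    rw [hr, hδ]; field_simp; ring
  obtain ⟨C1, hC1, N1, h1⟩ := gh_moment p (by rw [hp]; linarith)
  obtain ⟨C2, hC2, N2, h2⟩ := gh_moment r (by rw [hr]; linarith)
  obtain ⟨C3, hC3, h3⟩ := wlog
  obtain ⟨A, hA⟩ : ∃ A : ℝ, A = (2 ^ δ * C1) ^ (1 / r) * C2 ^ (1 / r) *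
      (3 * s * K) ^ (1 / (2 * s : ℝ)) := ⟨_, rfl⟩
  have hA0 : 0 ≤ A := by rw [hA]; positivity
  obtain ⟨v₀, hv₀⟩ := eventually_small (A * C3 ^ 2) (δ / r) η (by positivity) (by positivity) hη
  refine ⟨max v₀ 3, fun v hv => ?_⟩
  have hv3 : 3 ≤ v := (le_max_right _ _).trans hv
  have hvv : v₀ ≤ v := (le_max_left _ _).trans hv
  have hvR : (0 : ℝ) < v := by exact_mod_cast (by omega : 0 < v)
  obtain ⟨N3, h4⟩ := sup_le v hv3
  refine ⟨max (max N1 N2) (max N3 1), fun N hN k a hF => ?_⟩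
  have hN1 : N1 ≤ N := (le_max_left _ _).trans ((le_max_left _ _).trans hN)
  have hN2 : N2 ≤ N := (le_max_right _ _).trans ((le_max_left _ _).trans hN)
  have hN3 : N3 ≤ N := (le_max_left _ _).trans ((le_max_right _ _).trans hN)
  have hN4 : 1 ≤ N := (le_max_right _ _).trans ((le_max_right _ _).trans hN)
  have hNR : (1 : ℝ) ≤ N := by exact_mod_cast hN4
  have hNR0 : (0 : ℝ) < N := by linarith
  obtain ⟨hF1, hF2⟩ := hF
  obtain ⟨c, hc, hsum⟩ := dd_sum_le v N k a (fun i => (hF1 i).2)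
  have hκ : 1 ≤ kap v := one_le_kap v
  have hκ0 : 0 < kap v := by linarith
  have hκ3 : kap v ≤ C3 * Real.log v := h3 v (by omega)
  -- the three factors
  have hX := root_X (r := r) (p := p) (δ := δ) (C := C1) (κ := kap v) (V := v) (n := N)
    (S := ∑ h ∈ range (2 * N + 1), ‖gh v N (fr N h)‖ ^ r) hδ0 hp hr hC1 hκ hvR hNR0
    (by positivity) (by
      refine (sup_rpow (range (2 * N + 1)) (fun h => ‖gh v N (fr N h)‖)
        (fun h _ => norm_nonneg _) (2 / v * N) p r (by rw [hp]; linarith)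
        (by rw [hr, hp]; linarith) (fun h _ => h4 N hN3 _) (by positivity)).trans ?_
      exact mul_le_mul_of_nonneg_left (h1 N hN1 v).1 (by positivity))
  have hY := root_Y (r := r) (C := C2) (κ := kap v) (n := N)
    (S := ∑ h ∈ range (2 * N + 1), ‖gp v N (fr N h)‖ ^ r) hr0 hC2 hκ hNR0
    (by positivity) (h2 N hN2 v).2
  have hZ := root_Z (s := s) hs (K := K) (n := N) (k := k) (E := energy a s)
    (S := ∑ h ∈ range (2 * N + 1), ‖∑ i, (c i : ℂ) * ee (a i * fr N h)‖ ^ (2 * s)) hK hNR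
    (by positivity) (by positivity) (by positivity)
    (moment_energy a s N hs (fun i => (hF1 i).2) c hc) hF2
  have hH := holder3 (range (2 * N + 1)) (fun h => ‖gh v N (fr N h)‖)
    (fun h => ‖gp v N (fr N h)‖) (fun h => ‖∑ i, (c i : ℂ) * ee (a i * fr N h)‖)
    (fun h _ => norm_nonneg _) (fun h _ => norm_nonneg _) (fun h _ => norm_nonneg _) s hs r hrs
  have hk0 : (0 : ℝ) ≤ k := by positivity
  have hprod : ∑ h ∈ range (2 * N + 1),
      ‖gh v N (fr N h)‖ * ‖gp v N (fr N h)‖ * ‖∑ i, (c i : ℂ) * ee (a i * fr N h)‖ ≤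
      ((2 ^ δ * C1) ^ (1 / r) * (v : ℝ) ^ (-(δ / r)) * N * kap v) *
        (C2 ^ (1 / r) * N * kap v) * ((3 * s * K) ^ (1 / (2 * s : ℝ)) * k) := by
    refine hH.trans ?_
    refine mul_le_mul (mul_le_mul hX hY (by positivity) (by positivity)) hZ (by positivity)
      (by positivity)
  calc ∑ i, |DD v N (a i)| ≤ (1 / (2 * (N : ℝ) + 1)) *
        (((2 ^ δ * C1) ^ (1 / r) * (v : ℝ) ^ (-(δ / r)) * N * kap v) *
        (C2 ^ (1 / r) * N * kap v) * ((3 * s * K) ^ (1 / (2 * s : ℝ)) * k)) :=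
        hsum.trans (mul_le_mul_of_nonneg_left hprod (by positivity))
    _ ≤ (1 / (N : ℝ)) *
        (((2 ^ δ * C1) ^ (1 / r) * (v : ℝ) ^ (-(δ / r)) * N * kap v) *
        (C2 ^ (1 / r) * N * kap v) * ((3 * s * K) ^ (1 / (2 * s : ℝ)) * k)) := by
        refine mul_le_mul_of_nonneg_right ?_ (by positivity)
        exact one_div_le_one_div_of_le hNR0 (by linarith)
    _ = A * kap v ^ 2 * (v : ℝ) ^ (-(δ / r)) * (k * N) := by
        rw [hA]
        field_simp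
    _ ≤ A * (C3 * Real.log v) ^ 2 * (v : ℝ) ^ (-(δ / r)) * (k * N) := by
        have h5 : kap v ^ 2 ≤ (C3 * Real.log v) ^ 2 := pow_le_pow_left₀ hκ0.le hκ3 2
        refine mul_le_mul_of_nonneg_right (mul_le_mul_of_nonneg_right
          (mul_le_mul_of_nonneg_left h5 hA0) (by positivity)) (by positivity)
    _ = (A * C3 ^ 2 * (Real.log v) ^ 2) * (v : ℝ) ^ (-(δ / r)) * (k * N) := by ring
    _ ≤ (η * (v : ℝ) ^ (δ / r)) * (v : ℝ) ^ (-(δ / r)) * (k * N) := by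
        refine mul_le_mul_of_nonneg_right (mul_le_mul_of_nonneg_right (hv₀ v hvv)
          (by positivity)) (by positivity)
    _ = η * k * N := by
        have h6 : (v : ℝ) ^ (δ / r) * (v : ℝ) ^ (-(δ / r)) = 1 := by
          rw [← Real.rpow_add hvR, add_neg_cancel, Real.rpow_zero]
        rw [show (η * (v : ℝ) ^ (δ / r)) * (v : ℝ) ^ (-(δ / r)) * (k * N) =
          η * ((v : ℝ) ^ (δ / r) * (v : ℝ) ^ (-(δ / r))) * (k * N) by ring, h6]
        ring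

end Pool.Agent.Lib.MP_629a14_nt.En
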