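import Mathlib

/-! Moments from the restriction inequality. -/

set_option autoImplicit false

namespace Pool.Agent.Lib.MP_629a14_nt.En

open Finset

private theorem level_aux (δ p C : ℝ) (hC : 0 ≤ C) (hp0 : 0 < p) (T : ℕ → ℝ) (n : ℕ) :
    ∀ H : Finset ℕ, H.card = n → (∀ h ∈ H, 0 ≤ T h) →
    (∀ R ⊆ H, ∑ h ∈ R, T h ^ 2 ≤ C * (R.card : ℝ) ^ δ) →
    ∑ h ∈ H, T h ^ p ≤ C ^ (p / 2) * ∑ m ∈ range n, (((m + 1 : ℕ) : ℝ)) ^ ((δ - 1) * (p / 2)) := by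
  induction n with
  | zero =>
    intro H hH _ _
    rw [Finset.card_eq_zero] at hH
    rw [hH]
    simp
  | succ n ih =>
    intro H hH hT hR
    have hne : H.Nonempty := Finset.card_pos.1 (by omega)
    obtain ⟨h₀, hh₀, hmin⟩ := H.exists_min_image T hne
    have h1 := hR H (subset_refl _)
    have h2 : (H.card : ℝ) * T h₀ ^ 2 ≤ ∑ h ∈ H, T h ^ 2 := by
      rw [← nsmul_eq_mul, ← Finset.sum_const]
      refine Finset.sum_le_sum fun h hh => ?_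
      exact pow_le_pow_left₀ (hT h₀ hh₀) (hmin h hh) 2
    rw [hH] at h1 h2
    have hn : (0 : ℝ) < ((n + 1 : ℕ) : ℝ) := by exact_mod_cast Nat.succ_pos n
    have h3 : T h₀ ^ 2 ≤ C * (((n + 1 : ℕ) : ℝ)) ^ (δ - 1) := by
      have h4 : ((n + 1 : ℕ) : ℝ) * T h₀ ^ 2 ≤ C * (((n + 1 : ℕ) : ℝ)) ^ δ := h2.trans h1
      rw [Real.rpow_sub_one hn.ne', ← mul_div_assoc, le_div_iff₀ hn]
      linarith
    have h5 : T h₀ ^ p ≤ C ^ (p / 2) * (((n + 1 : ℕ) : ℝ)) ^ ((δ - 1) * (p / 2)) := by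
      have h6 : T h₀ ^ p = (T h₀ ^ 2) ^ (p / 2) := by
        rw [← Real.rpow_natCast, ← Real.rpow_mul (hT h₀ hh₀)]
        congr 1
        push_cast
        ring
      rw [h6, Real.rpow_mul hn.le, ← Real.mul_rpow hC (Real.rpow_nonneg hn.le _)]
      exact Real.rpow_le_rpow (sq_nonneg _) h3 (by positivity)
    have h7 := ih (H.erase h₀) (by rw [Finset.card_erase_of_mem hh₀]; omega)
      (fun h hh => hT h (Finset.mem_of_mem_erase hh))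
      (fun R hR' => hR R (hR'.trans (Finset.erase_subset _ _)))
    rw [← Finset.add_sum_erase H _ hh₀, Finset.sum_range_succ, mul_add]
    linarith

/-- If `∑_{h ∈ R} T h ^ 2 ≤ C |R| ^ δ` for all subsets `R` of `H`, then `∑_{h ∈ H} T h ^ p` is bounded
by a constant depending only on `δ, p, C`, when `p (1 - δ) > 2`. Proof by induction on `|H|` of
`∑_{h ∈ H} T h ^ p ≤ C ^ (p/2) ∑_{m=1}^{|H|} m ^ (-(1-δ) p / 2)`: take `h₀ ∈ H` with `T h₀` minimal;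
then `|H| T h₀ ^ 2 ≤ ∑_H T ^ 2 ≤ C |H| ^ δ`, so `T h₀ ^ p ≤ C ^ (p/2) |H| ^ (-(1-δ) p / 2)`; apply the
induction hypothesis to `H.erase h₀`. The series converges (`Real.summable_one_div_nat_rpow`
or `Real.summable_nat_rpow`), so take `B = C ^ (p/2) ∑' m + 1`. -/
theorem level_moment (δ p C : ℝ) (hδ : 0 < δ) (hδ1 : δ < 1) (hC : 0 ≤ C)
    (hp : 2 < p * (1 - δ)) : ∃ B : ℝ, 0 < B ∧ ∀ (H : Finset ℕ) (T : ℕ → ℝ),
    (∀ h ∈ H, 0 ≤ T h) → (∀ R ⊆ H, ∑ h ∈ R, T h ^ 2 ≤ C * (R.card : ℝ) ^ δ) →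
    ∑ h ∈ H, T h ^ p ≤ B := by
  have hp0 : 0 < p := by
    by_contra h
    rw [not_lt] at h
    nlinarith
  have he : (δ - 1) * (p / 2) < -1 := by nlinarith
  have hs : Summable (fun m : ℕ => (((m + 1 : ℕ) : ℝ)) ^ ((δ - 1) * (p / 2))) :=
    (summable_nat_add_iff 1).2 (Real.summable_nat_rpow.2 he)
  have hnn : ∀ m : ℕ, 0 ≤ (((m + 1 : ℕ) : ℝ)) ^ ((δ - 1) * (p / 2)) :=
    fun m => Real.rpow_nonneg (Nat.cast_nonneg _) _
  refine ⟨C ^ (p / 2) * ∑' m : ℕ, (((m + 1 : ℕ) : ℝ)) ^ ((δ - 1) * (p / 2)) + 1, ?_, ?_⟩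
  · have h1 : 0 ≤ C ^ (p / 2) := Real.rpow_nonneg hC _
    have h2 : 0 ≤ ∑' m : ℕ, (((m + 1 : ℕ) : ℝ)) ^ ((δ - 1) * (p / 2)) := tsum_nonneg hnn
    positivity
  · intro H T hT hR
    have h1 := level_aux δ p C hC hp0 T H.card H rfl hT hR
    have h2 : ∑ m ∈ range H.card, (((m + 1 : ℕ) : ℝ)) ^ ((δ - 1) * (p / 2)) ≤
        ∑' m : ℕ, (((m + 1 : ℕ) : ℝ)) ^ ((δ - 1) * (p / 2)) :=
      hs.sum_le_tsum _ (fun m _ => hnn m)
    have h3 := mul_le_mul_of_nonneg_left h2 (Real.rpow_nonneg hC (p / 2))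
    linarith

end Pool.Agent.Lib.MP_629a14_nt.En
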