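import Pool.Agent.Lib.MP_629a14_nt.En.Dev
import Pool.Agent.Lib.MP_629a14_nt.En.CardBad
import Pool.Agent.Lib.MP_629a14_nt.En.Sing
import Pool.Agent.Lib.MP_629a14_nt.Rob.NuNu

/-! The Hardy-Littlewood asymptotics for families of small energy. -/

set_option autoImplicit false

namespace Pool.Agent.Lib.MP_629a14_nt.En

open Finset Pool.Agent.Lib.MP_629a14_nt Pool.Agent.Lib.MP_629a14_nt.Rob

theorem r2_eq (N n : ℕ) :
    ∑ m ∈ Ico 1 n, ff N m * ff N (n - m) = (r2 n : ℝ) * (Real.log N) ^ 2 := by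
  have h1 : ∀ m ∈ Ico 1 n, ff N m * ff N (n - m) =
      if m.Prime ∧ (n - m).Prime then (Real.log N) ^ 2 else 0 := by
    intro m _
    unfold ff
    by_cases ha : m.Prime
    · by_cases hb : (n - m).Prime
      · simp only [ha, hb, if_true, and_self]
        ring
      · simp [ha, hb]
    · simp [ha]
  rw [sum_congr rfl h1, ← sum_filter, sum_const, nsmul_eq_mul]
  have h2 : (Ico 1 n).filter (fun m => m.Prime ∧ (n - m).Prime) =
      (range (n + 1)).filter (fun p => p.Prime ∧ (n - p).Prime) := by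
    ext m
    rw [mem_filter, mem_filter, mem_Ico, mem_range]
    constructor
    · rintro ⟨h3, h4⟩
      exact ⟨by omega, h4⟩
    · rintro ⟨h3, h4, h5⟩
      have h6 := h4.pos
      have h7 := h5.pos
      exact ⟨by omega, h4, h5⟩
  rw [h2]
  rfl

/-- Comparison of `log n` with `log N` for `n ≥ δ N`. -/
theorem log_compare (δ ρ : ℝ) (hδ : 0 < δ) (hρ : 0 < ρ) : ∃ N₀ : ℕ, ∀ N : ℕ, N₀ ≤ N → ∀ n : ℕ,
    n ≤ N → δ * N ≤ n → 1 ≤ Real.log n ∧ Real.log n ≤ Real.log N ∧
      (1 - ρ) * (Real.log N) ^ 2 ≤ (Real.log n) ^ 2 := by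
  have hl : Filter.Tendsto (fun N : ℕ => Real.log N) Filter.atTop Filter.atTop :=
    Real.tendsto_log_atTop.comp tendsto_natCast_atTop_atTop
  have h1 := (hl.eventually_ge_atTop (1 + |Real.log δ| + 2 * |Real.log δ| / ρ)).and
    (Filter.eventually_ge_atTop 1)
  obtain ⟨N₀, hN₀⟩ := Filter.eventually_atTop.1 h1
  refine ⟨N₀, fun N hN n hn hδn => ?_⟩
  obtain ⟨h2, h3⟩ := hN₀ N hN
  have hN0 : (0 : ℝ) < N := by exact_mod_cast h3
  have hn0 : (0 : ℝ) < n := lt_of_lt_of_le (mul_pos hδ hN0) hδn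
  have h4 : Real.log δ + Real.log N ≤ Real.log n := by
    rw [← Real.log_mul hδ.ne' hN0.ne']
    exact Real.log_le_log (mul_pos hδ hN0) hδn
  have h5 : Real.log n ≤ Real.log N := Real.log_le_log hn0 (by exact_mod_cast hn)
  have h6 : -|Real.log δ| ≤ Real.log δ := neg_abs_le _
  have h7 : 0 ≤ 2 * |Real.log δ| / ρ := by positivity
  have h8 : 0 ≤ |Real.log δ| := abs_nonneg _
  have h9 : 2 * |Real.log δ| ≤ ρ * Real.log N := by
    have h10 : 2 * |Real.log δ| / ρ ≤ Real.log N := by linarith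
    rw [div_le_iff₀ hρ] at h10
    linarith
  refine ⟨by linarith, h5, ?_⟩
  have h11 : 0 ≤ Real.log N - |Real.log δ| := by linarith
  have h12 : (Real.log N - |Real.log δ|) ^ 2 ≤ (Real.log n) ^ 2 :=
    pow_le_pow_left₀ h11 (by linarith) 2
  have h13 : 0 ≤ Real.log N := by linarith
  nlinarith [mul_le_mul_of_nonneg_right h9 h13]

/-- Final numerical step. -/
theorem final_step {r L l x ρ : ℝ} (hρ0 : 0 ≤ ρ) (hl : 1 ≤ l) (hlL : l ≤ L)
    (h1 : (1 - ρ) * L ^ 2 ≤ l ^ 2) (hx : 0 ≤ x) (h2 : |r * L ^ 2 - x| ≤ 3 * ρ * x) :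
    |r - x / l ^ 2| ≤ 4 * ρ * (x / l ^ 2) := by
  have hL : 0 < L := by linarith
  have hl0 : 0 < l := by linarith
  have hL2 : 0 < L ^ 2 := by positivity
  have hl2 : 0 < l ^ 2 := by positivity
  have hlL2 : l ^ 2 ≤ L ^ 2 := pow_le_pow_left₀ hl0.le hlL 2
  have h3 : |r - x / L ^ 2| ≤ 3 * ρ * (x / L ^ 2) := by
    have e : r - x / L ^ 2 = (r * L ^ 2 - x) / L ^ 2 := by field_simp
    rw [e, abs_div, abs_of_pos hL2, div_le_iff₀ hL2]
    have e2 : 3 * ρ * (x / L ^ 2) * L ^ 2 = 3 * ρ * x := by field_simp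
    rw [e2]
    exact h2
  have h4 : x / L ^ 2 ≤ x / l ^ 2 := div_le_div_of_nonneg_left hx hl2 hlL2
  have h5 : x / l ^ 2 - x / L ^ 2 ≤ ρ * (x / l ^ 2) := by
    have h6 : (1 - ρ) * (x / l ^ 2) ≤ x / L ^ 2 := by
      rw [le_div_iff₀ hL2]
      have e3 : (1 - ρ) * (x / l ^ 2) * L ^ 2 = ((1 - ρ) * L ^ 2) * (x / l ^ 2) := by ring
      rw [e3]
      calc ((1 - ρ) * L ^ 2) * (x / l ^ 2) ≤ l ^ 2 * (x / l ^ 2) :=
            mul_le_mul_of_nonneg_right h1 (by positivity)
        _ = x := by field_simp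
    linarith
  have h7 : 3 * ρ * (x / L ^ 2) ≤ 3 * ρ * (x / l ^ 2) :=
    mul_le_mul_of_nonneg_left h4 (by positivity)
  rw [abs_le] at h3 ⊢
  have h8 : 0 ≤ x / l ^ 2 := by positivity
  have h9 : 0 ≤ ρ * (x / l ^ 2) := by positivity
  constructor
  · linarith [h3.1]
  · linarith [h3.2]

theorem main (s : ℕ) (hs : 1 ≤ s) (K ε : ℝ) (hK : 0 < K) (hε : 0 < ε) :
    ∃ N₀ : ℕ, ∀ N : ℕ, N₀ ≤ N → ∀ (k : ℕ) (a : Fin k → ℕ), Fam s K N k a →
      (∀ i, Even (a i)) →
      (((univ : Finset (Fin k)).filter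
        (fun i => ε * HL (a i) < |(r2 (a i) : ℝ) - HL (a i)|)).card : ℝ) ≤ ε * k := by
  classical
  set ρ : ℝ := ε / 4 with hρ
  have hρ0 : 0 < ρ := by positivity
  have htw := tw_pos
  obtain ⟨δ, hδ, hδ1, N1, hN1⟩ := small_card s hs K (ε / 3) hK (by positivity)
  obtain ⟨τ, hτ, v1, hv1⟩ := sig_sing ρ hρ0
  obtain ⟨v2, hv2⟩ := bad_card s hs K (ε / 3) τ hK (by positivity) hτ
  set lam : ℝ := ρ * (2 * tw) * δ with hlam
  have hlam0 : 0 < lam := by positivity
  obtain ⟨v3, hv3⟩ := dev_small s hs K (lam * (ε / 3)) hK (by positivity)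
  obtain ⟨v, hv⟩ : ∃ v : ℕ, v = max (max v1 v2) (max v3 2) := ⟨_, rfl⟩
  have hvv1 : v1 ≤ v := by rw [hv]; exact le_trans (le_max_left _ _) (le_max_left _ _)
  have hvv2 : v2 ≤ v := by rw [hv]; exact le_trans (le_max_right _ _) (le_max_left _ _)
  have hvv3 : v3 ≤ v := by rw [hv]; exact le_trans (le_max_left _ _) (le_max_right _ _)
  have hvv4 : 2 ≤ v := by rw [hv]; exact le_trans (le_max_right _ _) (le_max_right _ _)
  obtain ⟨N3, hN3⟩ := hv3 v hvv3
  obtain ⟨C, hC, hnunu⟩ := nunu v hvv4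
  obtain ⟨N4, hN4⟩ := log_compare δ ρ hδ hρ0
  obtain ⟨N5, hN5⟩ := exists_nat_ge (C / lam)
  refine ⟨max (max N1 N3) (max N4 (max N5 1)), fun N hN k a hfam heven => ?_⟩
  have hNN1 : N1 ≤ N := le_trans (le_trans (le_max_left _ _) (le_max_left _ _)) hN
  have hNN3 : N3 ≤ N := le_trans (le_trans (le_max_right _ _) (le_max_left _ _)) hN
  have hNN4 : N4 ≤ N := le_trans (le_trans (le_max_left _ _) (le_max_right _ _)) hN
  have hNN5 : N5 ≤ N := le_trans (le_trans (le_trans (le_max_left _ _) (le_max_right _ _))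
    (le_max_right _ _)) hN
  have hNN6 : 1 ≤ N := le_trans (le_trans (le_trans (le_max_right _ _) (le_max_right _ _))
    (le_max_right _ _)) hN
  have hN0 : (0 : ℝ) < N := by exact_mod_cast hNN6
  have hCN : C ≤ lam * N := by
    have h1 : C / lam ≤ N := hN5.trans (by exact_mod_cast hNN5)
    rw [div_le_iff₀ hlam0] at h1
    linarith
  have hsmall := hN1 N hNN1 k a hfam
  have hbad := hv2 v hvv2 N k a hfam
  have hdev := hN3 N hNN3 k a hfam
  -- Markov
  have hmark : (((univ : Finset (Fin k)).filter (fun i => lam * N < |DD v N (a i)|)).card : ℝ) ≤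
      (ε / 3) * k := by
    have h1 : (((univ : Finset (Fin k)).filter (fun i => lam * N < |DD v N (a i)|)).card : ℝ) *
        (lam * N) ≤ ∑ i, |DD v N (a i)| := by
      calc (((univ : Finset (Fin k)).filter (fun i => lam * N < |DD v N (a i)|)).card : ℝ) *
          (lam * N) = ∑ i ∈ (univ : Finset (Fin k)).filter (fun i => lam * N < |DD v N (a i)|),
            (lam * N) := by rw [sum_const, nsmul_eq_mul]
        _ ≤ ∑ i ∈ (univ : Finset (Fin k)).filter (fun i => lam * N < |DD v N (a i)|),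
            |DD v N (a i)| := sum_le_sum fun i hi => (mem_filter.1 hi).2.le
        _ ≤ ∑ i, |DD v N (a i)| := sum_le_sum_of_subset_of_nonneg (filter_subset _ _)
            (fun _ _ _ => abs_nonneg _)
    have h2 := h1.trans hdev
    have h3 : lam * (ε / 3) * k * N = ((ε / 3) * k) * (lam * N) := by ring
    rw [h3] at h2
    exact le_of_mul_le_mul_right h2 (by positivity)
  -- the exceptional indices
  have hsub : (univ : Finset (Fin k)).filter
      (fun i => ε * HL (a i) < |(r2 (a i) : ℝ) - HL (a i)|) ⊆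
      ((univ : Finset (Fin k)).filter (fun i => (a i : ℝ) < δ * N) ∪
      (univ : Finset (Fin k)).filter (fun i =>
        τ < ∑ p ∈ (a i).primeFactors.filter (fun p => v < p), 1 / (p : ℝ))) ∪
      (univ : Finset (Fin k)).filter (fun i => lam * N < |DD v N (a i)|) := by
    intro i hi
    rw [mem_filter] at hi
    by_contra hcon
    rw [mem_union, mem_union, mem_filter, mem_filter, mem_filter] at hcon
    push Not at hcon
    obtain ⟨⟨h1, h2⟩, h3⟩ := hcon
    have h1 := h1 (mem_univ _)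
    have h2 := h2 (mem_univ _)
    have h3 := h3 (mem_univ _)
    obtain ⟨ha1, haN⟩ := hfam.1 i
    have hsing := sing_ge (a i)
    have hs0 : 0 < sing (a i) := by linarith
    have hsig := hv1 v hvv1 (a i) ha1 h2
    have hnn := hnunu (a i) (heven i).two_dvd
    obtain ⟨hl1, hl2, hl3⟩ := hN4 N hNN4 (a i) haN h1
    have ha0 : (0 : ℝ) < a i := by exact_mod_cast ha1
    have hlamx : lam * N ≤ ρ * ((a i : ℝ) * sing (a i)) := by
      calc lam * N = ρ * ((δ * N) * (2 * tw)) := by rw [hlam]; ring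
        _ ≤ ρ * ((a i : ℝ) * sing (a i)) := by
            refine mul_le_mul_of_nonneg_left ?_ hρ0.le
            exact mul_le_mul h1 hsing (by positivity) ha0.le
    have hkey : |(r2 (a i) : ℝ) * (Real.log N) ^ 2 - (a i : ℝ) * sing (a i)| ≤
        3 * ρ * ((a i : ℝ) * sing (a i)) := by
      have e : (r2 (a i) : ℝ) * (Real.log N) ^ 2 - (a i : ℝ) * sing (a i) =
          DD v N (a i) + (∑ m ∈ Ico 1 (a i), nu v m * nu v (a i - m) - (a i : ℝ) * sig v (a i)) +
            (a i : ℝ) * (sig v (a i) - sing (a i)) := by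
        unfold DD
        rw [sum_sub_distrib, r2_eq]
        ring
      rw [e]
      have e1 : |(a i : ℝ) * (sig v (a i) - sing (a i))| ≤ ρ * ((a i : ℝ) * sing (a i)) := by
        rw [abs_mul, abs_of_pos ha0]
        calc (a i : ℝ) * |sig v (a i) - sing (a i)| ≤ (a i : ℝ) * (ρ * sing (a i)) :=
              mul_le_mul_of_nonneg_left hsig ha0.le
          _ = _ := by ring
      have e2 := abs_add_three (DD v N (a i))
        (∑ m ∈ Ico 1 (a i), nu v m * nu v (a i - m) - (a i : ℝ) * sig v (a i))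
        ((a i : ℝ) * (sig v (a i) - sing (a i)))
      linarith
    have hfin := final_step hρ0.le hl1 hl2 hl3 (by positivity) hkey
    have e3 : HL (a i) = (a i : ℝ) * sing (a i) / (Real.log (a i)) ^ 2 := by
      unfold HL
      ring
    rw [← e3] at hfin
    have e4 : 4 * ρ = ε := by rw [hρ]; ring
    rw [e4] at hfin
    exact absurd hi.2 (not_lt.2 hfin)
  have hcard := card_le_card hsub
  have hc1 := card_union_le ((univ : Finset (Fin k)).filter (fun i => (a i : ℝ) < δ * N) ∪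
      (univ : Finset (Fin k)).filter (fun i =>
        τ < ∑ p ∈ (a i).primeFactors.filter (fun p => v < p), 1 / (p : ℝ)))
      ((univ : Finset (Fin k)).filter (fun i => lam * N < |DD v N (a i)|))
  have hc2 := card_union_le ((univ : Finset (Fin k)).filter (fun i => (a i : ℝ) < δ * N))
      ((univ : Finset (Fin k)).filter (fun i =>
        τ < ∑ p ∈ (a i).primeFactors.filter (fun p => v < p), 1 / (p : ℝ)))
  have hfin : (((univ : Finset (Fin k)).filter
      (fun i => ε * HL (a i) < |(r2 (a i) : ℝ) - HL (a i)|)).card : ℝ) ≤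
      (((univ : Finset (Fin k)).filter (fun i => (a i : ℝ) < δ * N)).card : ℝ) +
      (((univ : Finset (Fin k)).filter (fun i =>
        τ < ∑ p ∈ (a i).primeFactors.filter (fun p => v < p), 1 / (p : ℝ))).card : ℝ) +
      (((univ : Finset (Fin k)).filter (fun i => lam * N < |DD v N (a i)|)).card : ℝ) := by
    exact_mod_cast hcard.trans (hc1.trans (Nat.add_le_add_right hc2 _))
  linarith

end Pool.Agent.Lib.MP_629a14_nt.En
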