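import Pool.Agent.Lib.MP_629a14_nt.En.WLog
import Pool.Agent.Lib.MP_629a14_nt.Decomp

/-! The restriction inequality with a small exponent. -/

set_option autoImplicit false

namespace Pool.Agent.Lib.MP_629a14_nt.En

open Finset Pool.Agent.Lib.MP_629a14_nt Pool.Agent.Lib.MP_629a14_nt.Rob
open Pool.Agent.Lib.MP_60b32f_nt (hq)

/-- the logarithm is smaller than a power -/
private theorem log_two_mul_le {δ x : ℝ} (hδ : 0 < δ) (hx : 1 ≤ x) :
    Real.log (2 * x) ≤ (1 + 1 / δ) * x ^ δ := by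
  have h1 : Real.log x ≤ x ^ δ / δ := Real.log_le_rpow_div (by linarith) hδ
  have h2 : 1 ≤ x ^ δ := Real.one_le_rpow hx hδ.le
  have h3 : Real.log 2 ≤ 1 := by
    have := Real.log_le_sub_one_of_pos (show (0 : ℝ) < 2 by norm_num)
    linarith
  rw [Real.log_mul (by norm_num) (by linarith)]
  have h4 : (1 + 1 / δ) * x ^ δ = x ^ δ + x ^ δ / δ := by ring
  rw [h4]
  linarith

/-- the inequality with the logarithm -/
private theorem TT_log {C0 : ℝ} (hC0 : 0 < C0)
    (hlow : ∀ P Q : ℕ, 2 ≤ P → Real.log (Q + 1) ≤ C0 * Real.log P * hq (primorial P) Q)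
    {N Q : ℕ} (hN : 3 ≤ N) (hQ : Q = ⌊(N : ℝ) ^ (1 / 4 : ℝ)⌋₊) (A : Finset ℕ)
    (hA : ∀ p ∈ A, p.Prime ∧ Q < p ∧ p ≤ N) (hAc : (A.card : ℝ) ≤ 2 * (N / Real.log N))
    (R : Finset ℕ) (hR : R ⊆ range (2 * N + 1)) (hne : R.Nonempty) :
    ∑ h ∈ R, TT N A h ^ 2 ≤ 240 * C0 * Real.log (2 * R.card) := by
  have hNr : (3 : ℝ) ≤ N := by exact_mod_cast hN
  have hN0 : (0 : ℝ) < N := by linarith
  have hL : 0 < Real.log N := Real.log_pos (by linarith)
  set y : ℝ := (N : ℝ) ^ (1 / 4 : ℝ) with hy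
  have hy0 : 0 ≤ y := Real.rpow_nonneg hN0.le _
  have hy1 : 1 ≤ y := Real.one_le_rpow (by linarith) (by norm_num)
  have hy4 : y ^ 4 = N := by
    rw [hy, ← Real.rpow_natCast, ← Real.rpow_mul hN0.le]
    norm_num
  have hQ1 : 0 < Q := by
    rw [hQ, Nat.floor_pos]
    exact hy1
  have hQy : (Q : ℝ) ≤ y := by rw [hQ]; exact Nat.floor_le hy0
  have hyQ : y < Q + 1 := by rw [hQ]; exact Nat.lt_floor_add_one y
  have hQ4 : (Q : ℝ) ^ 4 ≤ N := by
    rw [← hy4]
    exact pow_le_pow_left₀ (by positivity) hQy 4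
  set M : ℕ := 2 * N + 1 with hM
  have hM0 : (0 : ℝ) < M := by rw [hM]; positivity
  have hMr : (M : ℝ) = 2 * N + 1 := by rw [hM]; push_cast; ring
  set P : ℕ := 2 * R.card with hP
  have hRc : 1 ≤ R.card := card_pos.2 hne
  have hP2 : 2 ≤ P := by omega
  have hPr : (P : ℝ) = 2 * R.card := by rw [hP]; push_cast; ring
  have hP2r : (2 : ℝ) ≤ P := by exact_mod_cast hP2
  have hlP : 0 ≤ Real.log P := Real.log_nonneg (by linarith)
  have hres := restriction R (fun h : ℕ => -((h : ℝ) / M)) (δ := 1 / (M : ℝ)) (by positivity) (by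
    intro r hr s hs hrs n
    have hr' := mem_range.1 (hR hr)
    have hs' := mem_range.1 (hR hs)
    have e : -((r : ℝ) / M) - -((s : ℝ) / M) - n = (((s : ℤ) - r - n * M : ℤ) : ℝ) / M := by
      push_cast
      field_simp
      ring
    rw [e, abs_div, abs_of_pos hM0]
    refine div_le_div_of_nonneg_right ?_ hM0.le
    have hne0 : (s : ℤ) - r - n * M ≠ 0 := by
      intro h0
      have h1 : (M : ℤ) ∣ (s : ℤ) - r := ⟨n, by linarith⟩
      have h2 : (s : ℤ) - r = 0 := by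
        apply Int.eq_zero_of_abs_lt_dvd h1
        rw [abs_lt]
        constructor <;> omega
      apply hrs
      omega
    have : (1 : ℤ) ≤ |(s : ℤ) - r - n * M| := Int.one_le_abs hne0
    exact_mod_cast this) (N := N) (W := M) (P := P) (Q := Q) hQ1 (by
    rw [mul_one_div, div_le_one hM0, hMr]
    linarith) (by omega) (by rw [one_div_one_div]) (by omega) A (by
    intro p hp
    have := hA p hp
    rw [mem_Icc]
    exact ⟨this.1.pos, this.2.2⟩) (fun p hp => ⟨(hA p hp).1, (hA p hp).2.1⟩)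
  have hhq := hlow P Q hP2
  have hQlog : (1 / 4) * Real.log N ≤ Real.log (Q + 1) := by
    have h1 : Real.log y = (1 / 4) * Real.log N := by rw [hy, Real.log_rpow hN0]
    rw [← h1]
    exact Real.log_le_log (by linarith) hyQ.le
  set Z : ℝ := ∑ r ∈ R, ‖∑ n ∈ A, ee (n * (-((r : ℝ) / M)))‖ ^ 2 with hZ
  have hZ0 : 0 ≤ Z := sum_nonneg fun _ _ => by positivity
  have h1 : Z * ((1 / 4) * Real.log N) ≤ C0 * Real.log P * (30 * N * A.card) := by
    have hCl : 0 ≤ C0 * Real.log P := mul_nonneg hC0.le hlP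
    calc Z * ((1 / 4) * Real.log N) ≤ Z * (C0 * Real.log P * hq (primorial P) Q) := by
          refine mul_le_mul_of_nonneg_left (hQlog.trans hhq) hZ0
      _ = C0 * Real.log P * (Z * hq (primorial P) Q) := by ring
      _ ≤ C0 * Real.log P * (10 * M * A.card) := mul_le_mul_of_nonneg_left hres hCl
      _ ≤ C0 * Real.log P * (30 * N * A.card) := by
          refine mul_le_mul_of_nonneg_left ?_ hCl
          have : (M : ℝ) ≤ 3 * N := by rw [hMr]; linarith
          have h2 : (10 : ℝ) * M ≤ 30 * N := by linarith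
          exact mul_le_mul_of_nonneg_right h2 (Nat.cast_nonneg _)
  have h2 : ∑ h ∈ R, TT N A h ^ 2 = Z * (Real.log N / N) ^ 2 := by
    rw [hZ, sum_mul]
    refine sum_congr rfl fun h _ => ?_
    unfold TT fs
    rw [mul_pow]
  rw [h2]
  have h3 : Z * (Real.log N / N) ^ 2 = (Z * ((1 / 4) * Real.log N)) * (4 * Real.log N / N ^ 2) := by
    field_simp
  rw [h3, ← hPr]
  have hCl : 0 ≤ C0 * Real.log P := mul_nonneg hC0.le hlP
  calc (Z * ((1 / 4) * Real.log N)) * (4 * Real.log N / N ^ 2)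
      ≤ (C0 * Real.log P * (30 * N * (2 * (N / Real.log N)))) * (4 * Real.log N / N ^ 2) := by
        refine mul_le_mul_of_nonneg_right (h1.trans ?_) (by positivity)
        refine mul_le_mul_of_nonneg_left ?_ hCl
        exact mul_le_mul_of_nonneg_left hAc (by positivity)
    _ = 240 * C0 * Real.log P := by
        field_simp
        ring

/-- As `TT_hyp` (`Decomp.lean`), using `hq_low` in place of `hq_primorial` (with `P = 2 |R| ≥ 2`), and
`log (2 |R|) ≤ C_δ |R| ^ δ` for `|R| ≥ 1` (`Real.log_le_rpow_div`). -/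
theorem TT_low (δ : ℝ) (hδ : 0 < δ) : ∃ C : ℝ, 0 < C ∧ ∀ N Q : ℕ, 3 ≤ N →
    Q = ⌊(N : ℝ) ^ (1 / 4 : ℝ)⌋₊ → ∀ A : Finset ℕ, (∀ p ∈ A, p.Prime ∧ Q < p ∧ p ≤ N) →
    (A.card : ℝ) ≤ 2 * (N / Real.log N) → ∀ R : Finset ℕ, R ⊆ range (2 * N + 1) →
    ∑ h ∈ R, TT N A h ^ 2 ≤ C * (R.card : ℝ) ^ δ := by
  obtain ⟨C0, hC0, hlow⟩ := hq_low
  have hδ' : 0 < 1 + 1 / δ := by positivity
  refine ⟨240 * C0 * (1 + 1 / δ), by positivity, ?_⟩
  intro N Q hN hQ A hA hAc R hR
  rcases R.eq_empty_or_nonempty with h0 | hne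
  · rw [h0]
    simp only [sum_empty, card_empty]
    positivity
  have hRc : (1 : ℝ) ≤ R.card := by exact_mod_cast card_pos.2 hne
  refine (TT_log hC0 hlow hN hQ A hA hAc R hR hne).trans ?_
  rw [mul_assoc (240 * C0)]
  exact mul_le_mul_of_nonneg_left (log_two_mul_le hδ hRc) (by positivity)

end Pool.Agent.Lib.MP_629a14_nt.En
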