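import Pool.Agent.Lib.MP_629a14_nt.En.Defs
import Pool.Agent.Lib.MP_629a14_nt.En.Level
import Pool.Agent.Lib.MP_629a14_nt.En.TTLow
import Pool.Agent.Lib.MP_629a14_nt.Rob.GHat

/-! Moments of the Fourier transforms of the primes and of `nu`. -/

set_option autoImplicit false

namespace Pool.Agent.Lib.MP_629a14_nt.En

open Finset Pool.Agent.Lib.MP_629a14_nt Pool.Agent.Lib.MP_629a14_nt.Rob

/-- `(x + y) ^ p ≤ 2 ^ p (x ^ p + y ^ p)`, since `x + y ≤ 2 max x y`. -/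
theorem add_rpow_le {x y p : ℝ} (hx : 0 ≤ x) (hy : 0 ≤ y) (hp : 0 ≤ p) :
    (x + y) ^ p ≤ 2 ^ p * (x ^ p + y ^ p) := by
  have hxp : 0 ≤ x ^ p := Real.rpow_nonneg hx p
  have hyp : 0 ≤ y ^ p := Real.rpow_nonneg hy p
  have h2 : (0 : ℝ) ≤ 2 ^ p := by positivity
  rcases le_total x y with h | h
  · calc (x + y) ^ p ≤ (2 * y) ^ p := Real.rpow_le_rpow (by linarith) (by linarith) hp
      _ = 2 ^ p * y ^ p := Real.mul_rpow (by norm_num) hy
      _ ≤ 2 ^ p * (x ^ p + y ^ p) := mul_le_mul_of_nonneg_left (by linarith) h2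
  · calc (x + y) ^ p ≤ (2 * x) ^ p := Real.rpow_le_rpow (by linarith) (by linarith) hp
      _ = 2 ^ p * x ^ p := Real.mul_rpow (by norm_num) hx
      _ ≤ 2 ^ p * (x ^ p + y ^ p) := mul_le_mul_of_nonneg_left (by linarith) h2

/-- As `sp_four` in `Rob/GHat.lean`: the primes in `(Q, N]`, `Q = ⌊N ^ (1/4)⌋`, by `TT_low` (for some
`δ` with `p (1 - δ) > 2`) and `level_moment`; the primes up to `Q` trivially: each term is at most
`(N ^ (1/4) log N) ^ p ≤ (4 N ^ (1/2)) ^ p` and there are `2 N + 1 ≤ 3 N` terms, `N · N ^ (p/2) ≤ N ^ p`.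
(`card_primes_le` in `GHat.lean` gives the bound on the number of primes; `add_rpow_le`.) -/
theorem sp_moment (p : ℝ) (hp : 2 < p) : ∃ C : ℝ, 0 < C ∧ ∃ N₀ : ℕ, ∀ N : ℕ, N₀ ≤ N →
    ∑ h ∈ range (2 * N + 1), ‖(Real.log N : ℂ) * SP N (fr N h)‖ ^ p ≤ C * (N : ℝ) ^ p := by
  classical
  have hp0 : 0 < p := by linarith
  obtain ⟨δ, hδ⟩ : ∃ δ : ℝ, δ = (p - 2) / (2 * p) := ⟨_, rfl⟩
  have hδ0 : 0 < δ := by
    rw [hδ]
    exact div_pos (by linarith) (by linarith)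
  have hpδ : p * (1 - δ) = (p + 2) / 2 := by
    rw [hδ]
    field_simp
    ring
  have hδ1 : δ < 1 := by
    rw [hδ, div_lt_one (by linarith)]
    linarith
  obtain ⟨C₁, hC₁, hTT⟩ := TT_low δ hδ0
  obtain ⟨B₁, hB₁, hlev⟩ := level_moment δ p C₁ hδ0 hδ1 hC₁.le (by rw [hpδ]; linarith)
  obtain ⟨N₀, hcard⟩ := card_primes_le
  refine ⟨2 ^ p * (3 * 4 ^ p + B₁), by positivity, max N₀ 3, fun N hN => ?_⟩
  have hN3 : 3 ≤ N := le_of_max_le_right hN
  have hN0 : (0 : ℝ) < N := by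
    have : 0 < N := by omega
    exact_mod_cast this
  have hN1 : (1 : ℝ) ≤ N := by
    have : 1 ≤ N := by omega
    exact_mod_cast this
  have hc := hcard N (le_of_max_le_left hN)
  have hlog : 0 ≤ Real.log N := Real.log_natCast_nonneg N
  obtain ⟨Q, hQ⟩ : ∃ Q : ℕ, Q = ⌊(N : ℝ) ^ (1 / 4 : ℝ)⌋₊ := ⟨_, rfl⟩
  have hQ1 : (Q : ℝ) ≤ (N : ℝ) ^ (1 / 4 : ℝ) := by
    rw [hQ]
    exact Nat.floor_le (by positivity)
  set A := ((Icc 1 N).filter Nat.Prime).filter (fun q => Q < q) with hA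
  set B := ((Icc 1 N).filter Nat.Prime).filter (fun q => ¬ Q < q) with hB
  have hAc : (A.card : ℝ) ≤ 2 * (N / Real.log N) := by
    refine le_trans ?_ hc
    exact_mod_cast card_filter_le _ _
  have hAp : ∀ q ∈ A, q.Prime ∧ Q < q ∧ q ≤ N := by
    intro q hq
    rw [hA, mem_filter, mem_filter, mem_Icc] at hq
    exact ⟨hq.1.2, hq.2, hq.1.1.2⟩
  have h4 := hlev (range (2 * N + 1)) (TT N A) (fun h _ => TT_nonneg N A h)
    (fun R hR => hTT N Q hN3 hQ A hAp hAc R hR)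
  have hBc : (B.card : ℝ) ≤ Q := by
    have h5 : B ⊆ Icc 1 Q := by
      intro q hq
      rw [hB, mem_filter, mem_filter, mem_Icc] at hq
      rw [mem_Icc]
      exact ⟨hq.1.1.1, by omega⟩
    have h6 := card_le_card h5
    rw [Nat.card_Icc] at h6
    have : B.card ≤ Q := by omega
    exact_mod_cast this
  have hsplit : ∀ h, (Real.log N : ℂ) * SP N (fr N h) =
      (Real.log N : ℂ) * (∑ q ∈ B, ee (q * fr N h)) + (Real.log N : ℂ) * fs N A h := by
    intro h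
    have h5 : SP N (fr N h) = ∑ q ∈ A, ee (q * fr N h) + ∑ q ∈ B, ee (q * fr N h) := by
      unfold SP
      rw [hA, hB, sum_filter_add_sum_filter_not]
    have h6 : fs N A h = ∑ q ∈ A, ee (q * fr N h) := rfl
    rw [h5, h6]
    ring
  have hAp' : ∀ h, ‖(Real.log N : ℂ) * fs N A h‖ ^ p = (N : ℝ) ^ p * TT N A h ^ p := by
    intro h
    rw [← Real.mul_rpow hN0.le (TT_nonneg N A h)]
    unfold TT
    rw [norm_mul, Complex.norm_real, Real.norm_eq_abs, abs_of_nonneg hlog]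
    congr 1
    field_simp
  have hlog4 : Real.log N ≤ 4 * (N : ℝ) ^ (1 / 4 : ℝ) := by
    have := Real.log_le_rpow_div hN0.le (by norm_num : (0 : ℝ) < 1 / 4)
    refine this.trans (le_of_eq ?_)
    ring
  have hB1 : ∀ h, ‖(Real.log N : ℂ) * (∑ q ∈ B, ee (q * fr N h))‖ ≤ 4 * (N : ℝ) ^ (1 / 2 : ℝ) := by
    intro h
    have h5 : ‖∑ q ∈ B, ee (q * fr N h)‖ ≤ (N : ℝ) ^ (1 / 4 : ℝ) := by
      refine (norm_sum_le _ _).trans ?_
      simp only [norm_ee, sum_const, nsmul_eq_mul, mul_one]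
      exact hBc.trans hQ1
    rw [norm_mul, Complex.norm_real, Real.norm_eq_abs, abs_of_nonneg hlog]
    have h6 : (N : ℝ) ^ (1 / 4 : ℝ) * (N : ℝ) ^ (1 / 4 : ℝ) = (N : ℝ) ^ (1 / 2 : ℝ) := by
      rw [← Real.rpow_add hN0]
      norm_num
    calc Real.log N * ‖∑ q ∈ B, ee (q * fr N h)‖
        ≤ (4 * (N : ℝ) ^ (1 / 4 : ℝ)) * (N : ℝ) ^ (1 / 4 : ℝ) :=
          mul_le_mul hlog4 h5 (norm_nonneg _) (by positivity)
      _ = 4 * (N : ℝ) ^ (1 / 2 : ℝ) := by rw [mul_assoc, h6]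
  have hBp : ∀ h, ‖(Real.log N : ℂ) * (∑ q ∈ B, ee (q * fr N h))‖ ^ p ≤
      4 ^ p * (N : ℝ) ^ (p / 2) := by
    intro h
    refine (Real.rpow_le_rpow (norm_nonneg _) (hB1 h) hp0.le).trans (le_of_eq ?_)
    rw [Real.mul_rpow (by norm_num) (by positivity), ← Real.rpow_mul hN0.le]
    congr 2
    ring
  have hNp : (N : ℝ) * (N : ℝ) ^ (p / 2) ≤ (N : ℝ) ^ p := by
    have h7 : (N : ℝ) * (N : ℝ) ^ (p / 2) = (N : ℝ) ^ (1 + p / 2) := by
      rw [Real.rpow_add hN0, Real.rpow_one]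
    rw [h7]
    exact Real.rpow_le_rpow_of_exponent_le hN1 (by linarith)
  have hNp0 : 0 ≤ (N : ℝ) ^ (p / 2) := by positivity
  have h4p : (0 : ℝ) ≤ 4 ^ p := by positivity
  have hNpp : (0 : ℝ) ≤ (N : ℝ) ^ p := by positivity
  calc ∑ h ∈ range (2 * N + 1), ‖(Real.log N : ℂ) * SP N (fr N h)‖ ^ p
      ≤ ∑ h ∈ range (2 * N + 1), 2 ^ p * (4 ^ p * (N : ℝ) ^ (p / 2) +
          (N : ℝ) ^ p * TT N A h ^ p) := by
        refine sum_le_sum fun h _ => ?_
        rw [hsplit]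
        refine (Real.rpow_le_rpow (norm_nonneg _) (norm_add_le _ _) hp0.le).trans ?_
        refine (add_rpow_le (norm_nonneg _) (norm_nonneg _) hp0.le).trans ?_
        refine mul_le_mul_of_nonneg_left ?_ (by positivity)
        exact add_le_add (hBp h) (hAp' h).le
    _ = 2 ^ p * ((2 * (N : ℝ) + 1) * (4 ^ p * (N : ℝ) ^ (p / 2)) +
          (N : ℝ) ^ p * ∑ h ∈ range (2 * N + 1), TT N A h ^ p) := by
        rw [← mul_sum, sum_add_distrib, sum_const, card_range, nsmul_eq_mul, ← mul_sum]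
        push_cast
        ring
    _ ≤ 2 ^ p * ((3 * (N : ℝ)) * (4 ^ p * (N : ℝ) ^ (p / 2)) + (N : ℝ) ^ p * B₁) := by
        refine mul_le_mul_of_nonneg_left ?_ (by positivity)
        refine add_le_add ?_ (mul_le_mul_of_nonneg_left h4 (by positivity))
        exact mul_le_mul_of_nonneg_right (by linarith) (by positivity)
    _ = 2 ^ p * (3 * 4 ^ p * ((N : ℝ) * (N : ℝ) ^ (p / 2)) + (N : ℝ) ^ p * B₁) := by ring
    _ ≤ 2 ^ p * (3 * 4 ^ p * (N : ℝ) ^ p + (N : ℝ) ^ p * B₁) := by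
        refine mul_le_mul_of_nonneg_left ?_ (by positivity)
        refine add_le_add ?_ le_rfl
        exact mul_le_mul_of_nonneg_left hNp (by positivity)
    _ = 2 ^ p * (3 * 4 ^ p + B₁) * (N : ℝ) ^ p := by ring

private theorem kap_nonneg (v : ℕ) : 0 ≤ kap v := by
  unfold kap
  positivity

/-- As `sn_four` in `Rob/GHat.lean`: `‖SN‖ ≤ N kap v`, so `‖SN‖ ^ p ≤ (N kap v) ^ (p - 2) ‖SN‖ ^ 2`, and
`parsevalN`. -/
theorem sn_moment (p : ℝ) (hp : 2 ≤ p) (v N : ℕ) (hN : 1 ≤ N) :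
    ∑ h ∈ range (2 * N + 1), ‖SN v N (fr N h)‖ ^ p ≤ 3 * (N : ℝ) ^ p * kap v ^ p := by
  have hκ : kap v = (primorial v : ℝ) / (primorial v).totient := rfl
  have hκ0 : 0 ≤ kap v := kap_nonneg v
  have hN1 : (1 : ℝ) ≤ N := by exact_mod_cast hN
  have hN0 : (0 : ℝ) ≤ N := by linarith
  have h1 : ∀ h, ‖SN v N (fr N h)‖ ≤ N * kap v := by
    intro h
    unfold SN
    refine (norm_sum_le _ _).trans ?_
    have : ∀ m ∈ Icc 1 N, ‖(nu v m : ℂ) * ee (m * fr N h)‖ ≤ kap v := by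
      intro m _
      rw [norm_mul, norm_ee, mul_one, Complex.norm_real, Real.norm_eq_abs,
        abs_of_nonneg (nu_nonneg v m)]
      exact nu_le v m
    refine (sum_le_sum this).trans ?_
    rw [sum_const, Nat.card_Icc, nsmul_eq_mul]
    simp
  have h2 := parsevalN N (nu v)
  have h3 : ∑ m ∈ Icc 1 N, nu v m ^ 2 ≤ N * kap v ^ 2 := by
    have : ∀ m ∈ Icc 1 N, nu v m ^ 2 ≤ kap v ^ 2 := fun m _ =>
      pow_le_pow_left₀ (nu_nonneg v m) (nu_le v m) 2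
    refine (sum_le_sum this).trans ?_
    rw [sum_const, Nat.card_Icc, nsmul_eq_mul]
    simp
  have hM : 0 ≤ (N : ℝ) * kap v := by positivity
  have hsplit : ∀ x : ℝ, 0 ≤ x → x ≤ N * kap v → x ^ p ≤ (N * kap v) ^ (p - 2) * x ^ 2 := by
    intro x hx hxM
    rcases hx.eq_or_lt with h0 | h0
    · rw [← h0, Real.zero_rpow (by linarith)]
      simp
    · have h5 : x ^ p = x ^ (p - 2) * x ^ 2 := by
        rw [← Real.rpow_natCast x 2, ← Real.rpow_add h0]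
        congr 1
        push_cast
        ring
      rw [h5]
      exact mul_le_mul_of_nonneg_right (Real.rpow_le_rpow hx hxM (by linarith)) (by positivity)
  have hMp : (N * kap v) ^ (p - 2) * ((N : ℝ) * kap v) ^ 2 = (N : ℝ) ^ p * kap v ^ p := by
    have hκ1 : 0 < kap v := by
      rw [hκ]
      have hp : 0 < primorial v := primorial_pos v
      have ht : 0 < (primorial v).totient := Nat.totient_pos.2 hp
      exact div_pos (by exact_mod_cast hp) (by exact_mod_cast ht)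
    have hM1 : 0 < (N : ℝ) * kap v := by positivity
    rw [← Real.mul_rpow hN0 hκ0, ← Real.rpow_natCast ((N : ℝ) * kap v) 2, ← Real.rpow_add hM1]
    congr 1
    push_cast
    ring
  have hM0 : 0 ≤ ((N : ℝ) * kap v) ^ (p - 2) := Real.rpow_nonneg hM _
  calc ∑ h ∈ range (2 * N + 1), ‖SN v N (fr N h)‖ ^ p
      ≤ ∑ h ∈ range (2 * N + 1), (N * kap v) ^ (p - 2) * ‖SN v N (fr N h)‖ ^ 2 :=
        sum_le_sum fun h _ => hsplit _ (norm_nonneg _) (h1 h)
    _ = (N * kap v) ^ (p - 2) * ((2 * (N : ℝ) + 1) * ∑ m ∈ Icc 1 N, nu v m ^ 2) := by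
        rw [← mul_sum, ← h2]
        rfl
    _ ≤ (N * kap v) ^ (p - 2) * ((3 * (N : ℝ)) * (N * kap v ^ 2)) := by
        refine mul_le_mul_of_nonneg_left ?_ hM0
        refine mul_le_mul (by linarith) h3 (sum_nonneg fun _ _ => sq_nonneg _) (by positivity)
    _ = 3 * ((N * kap v) ^ (p - 2) * ((N : ℝ) * kap v) ^ 2) := by ring
    _ = 3 * (N : ℝ) ^ p * kap v ^ p := by
        rw [hMp]
        ring

theorem one_le_kap (v : ℕ) : 1 ≤ kap v := by
  have hp : 0 < primorial v := primorial_pos v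
  have ht : 0 < (primorial v).totient := Nat.totient_pos.2 hp
  unfold kap
  rw [one_le_div (by exact_mod_cast ht)]
  exact_mod_cast Nat.totient_le _

/-- The two preceding bounds and `add_rpow_le`. -/
theorem gh_moment (p : ℝ) (hp : 2 < p) : ∃ C : ℝ, 0 < C ∧ ∃ N₀ : ℕ, ∀ N : ℕ, N₀ ≤ N → ∀ v : ℕ,
    ∑ h ∈ range (2 * N + 1), ‖gh v N (fr N h)‖ ^ p ≤ C * (N : ℝ) ^ p * kap v ^ p ∧
    ∑ h ∈ range (2 * N + 1), ‖gp v N (fr N h)‖ ^ p ≤ C * (N : ℝ) ^ p * kap v ^ p := by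
  have hp0 : 0 < p := by linarith
  obtain ⟨C₁, hC₁, N₀, hsp⟩ := sp_moment p hp
  refine ⟨2 ^ p * (C₁ + 3), by positivity, max N₀ 1, fun N hN v => ?_⟩
  have h1 := hsp N (le_of_max_le_left hN)
  have hN1 : 1 ≤ N := le_of_max_le_right hN
  have h2 := sn_moment p hp.le v N hN1
  have hκ : 1 ≤ kap v ^ p := Real.one_le_rpow (one_le_kap v) hp0.le
  have key : ∀ F : ℕ → ℂ, (∀ h, ‖F h‖ ≤ ‖(Real.log N : ℂ) * SP N (fr N h)‖ + ‖SN v N (fr N h)‖) →
      ∑ h ∈ range (2 * N + 1), ‖F h‖ ^ p ≤ 2 ^ p * (C₁ + 3) * (N : ℝ) ^ p * kap v ^ p := by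
    intro F hF
    calc ∑ h ∈ range (2 * N + 1), ‖F h‖ ^ p
        ≤ ∑ h ∈ range (2 * N + 1), 2 ^ p * (‖(Real.log N : ℂ) * SP N (fr N h)‖ ^ p +
            ‖SN v N (fr N h)‖ ^ p) := by
          refine sum_le_sum fun h _ => ?_
          refine (Real.rpow_le_rpow (norm_nonneg _) (hF h) hp0.le).trans ?_
          exact add_rpow_le (norm_nonneg _) (norm_nonneg _) hp0.le
      _ = 2 ^ p * (∑ h ∈ range (2 * N + 1), ‖(Real.log N : ℂ) * SP N (fr N h)‖ ^ p +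
            ∑ h ∈ range (2 * N + 1), ‖SN v N (fr N h)‖ ^ p) := by
          rw [← mul_sum, sum_add_distrib]
      _ ≤ 2 ^ p * (C₁ * (N : ℝ) ^ p * kap v ^ p + 3 * (N : ℝ) ^ p * kap v ^ p) := by
          refine mul_le_mul_of_nonneg_left (add_le_add ?_ h2) (by positivity)
          exact h1.trans (le_mul_of_one_le_right (by positivity) hκ)
      _ = 2 ^ p * (C₁ + 3) * (N : ℝ) ^ p * kap v ^ p := by ring
  refine ⟨key _ fun h => ?_, key _ fun h => ?_⟩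
  · unfold gh
    exact norm_sub_le _ _
  · unfold gp
    exact norm_add_le _ _

end Pool.Agent.Lib.MP_629a14_nt.En
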